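import Mathlib
import Pool.Agent.H469R10.HO.Stmts
import Pool.Agent.H469R10.HO.Stmts2
import Pool.Agent.H336R4.PF.Defs

/-!
# PROJECT BIGCOEF: an element of the Selberg class with unbounded `S_F(x) / log log x`

Definitions and statements of the tasks. Parameters: `Q` large and fixed, `j₀` large.
Cells of integers `CC Q j = (j^(2Q), (j+1)^(2Q)]`, `j ≥ j₀`; node of `n` is `vv Q j₀ n = (n/j₀^(2Q))^(1/(4Q))`,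
so that the nodes of the integers of the cell `j` lie in `(UU j₀ j, UU j₀ (j+1)]`, `UU j₀ j = sqrt (j/j₀)`.
-/

set_option autoImplicit false

open Finset

namespace Pool.Agent.H96R3.BC

open Pool.Agent.H469R10.HO (Hoheisel TaskF)
open Pool.Agent.H336R4.PF (SS NT)

/-- the node of `n` -/
noncomputable def vv (Q j₀ n : ℕ) : ℝ := ((n : ℝ) / (j₀ : ℝ) ^ (2 * Q)) ^ (1 / (4 * (Q : ℝ)))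

/-- end points of the cells -/
noncomputable def UU (j₀ j : ℕ) : ℝ := Real.sqrt ((j : ℝ) / j₀)

/-- the integers of the cell `j` -/
def CC (Q j : ℕ) : Finset ℕ := Ioc (j ^ (2 * Q)) ((j + 1) ^ (2 * Q))

/-- size of the coefficients in a window -/
noncomputable def AA (X : ℕ) : ℝ := Real.exp (Real.sqrt (Real.log X))

/-- distance of the primes in a window -/
noncomputable def DD (X : ℕ) : ℝ := Real.exp (2 * Real.sqrt (Real.log X)) / (Real.log X) ^ 2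

/-- A base: windows `(X i, 2 X i]`, sparse sets of primes `P0 i` in them, coefficients `a0`. -/
structure Base (C₁ : ℝ) (X : ℕ → ℕ) (P0 : ℕ → Finset ℕ) (a0 : ℕ → ℝ) : Prop where
  tower : ∀ i, Real.exp (Real.exp ((X i : ℝ) ^ 2)) ≤ X (i + 1)
  mem : ∀ i, ∀ p ∈ P0 i, p.Prime ∧ X i < p ∧ p ≤ 2 * X i
  sparse : ∀ i, ∀ A Y : ℕ, (((Ioc A (A + Y)).filter (fun p => p ∈ P0 i)).card : ℝ) ≤ Y / DD (X i) + 1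
  many : ∀ i, (X i : ℝ) ≤ C₁ * (P0 i).card * DD (X i) * Real.log (X i)
  val : ∀ i, ∀ p ∈ P0 i, a0 p = AA (X i)
  off : ∀ p, (∀ i, p ∉ P0 i) → a0 p = 0

/-- majorant of the prime coefficients -/
noncomputable def gg (Q j₀ : ℕ) (a0 : ℕ → ℝ) (p : ℕ) : ℝ :=
  if a0 p ≠ 0 then a0 p else if j₀ ^ (2 * Q) < p then 2 / (Real.log p) ^ 2 else 0

/-- the multiplicative function with `cf y p = y p`, supported on squarefree numbers -/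
noncomputable def cf (y : ℕ → ℝ) (n : ℕ) : ℝ := if Squarefree n then ∏ p ∈ n.primeFactors, y p else 0

/-- the kernel `(v/u)^((k-1)/2) J_(k-1)(2 sqrt (u v))` -/
noncomputable def KK (k : ℕ) (u v : ℝ) : ℝ :=
  v ^ (k - 1) * ∑' j : ℕ, (-(u * v)) ^ j / ((j.factorial : ℝ) * ((k - 1 + j).factorial : ℝ))

/-- TASK KER1 (kernel: derivative, continuity, Laplace transform; power series). -/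
def TaskKer1 : Prop := ∀ k : ℕ, 1 ≤ k →
  (∀ u v : ℝ, HasDerivAt (fun u => KK k u v) (-(KK (k + 1) u v)) u) ∧
  (Continuous fun x : ℝ × ℝ => KK k x.1 x.2) ∧
  (∀ u t : ℝ, 0 ≤ u → 0 < t →
    MeasureTheory.IntegrableOn (fun v : ℝ => Real.exp (-(v * t)) * KK k u v) (Set.Ioi 0) ∧
    ∫ v in Set.Ioi (0:ℝ), Real.exp (-(v * t)) * KK k u v = Real.exp (-(u / t)) / t ^ k)

/-- TASK KER2 (bounds of the kernel, by the integral over a circle). -/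
def TaskKer2 : Prop := ∀ k : ℕ, 1 ≤ k → ∀ u v : ℝ, 0 ≤ u → 0 ≤ v →
  |KK k u v| ≤ 3 * v ^ (k - 1) ∧ (KK k u v) ^ 2 * u ^ (k - 1) ≤ v ^ (k - 1)

/-- interpolation weights: the unit mass at `u` (in the cell `j`) is replaced by the masses `w p u` at the nodes
of the primes `p` of the cell, without changing moments of order `< 4 Q + 4`. -/
structure Wts (Q j₀ : ℕ) (C : ℝ) (a0 : ℕ → ℝ) (w : ℕ → ℝ → ℝ) : Prop where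
  cont : ∀ p, Continuous (w p)
  supp : ∀ p u, w p u ≠ 0 → p.Prime ∧ a0 p = 0 ∧ j₀ ^ (2 * Q) < p
  bound : ∀ j, j₀ ≤ j → ∀ p ∈ CC Q j, ∀ u, UU j₀ j ≤ u → u ≤ UU j₀ (j + 1) →
    |w p u| ≤ C * Real.log j / (CC Q j).card
  tot : ∀ j, j₀ ≤ j → ∀ u, UU j₀ j ≤ u → u ≤ UU j₀ (j + 1) → ∑ p ∈ CC Q j, |w p u| ≤ C
  mom : ∀ j, j₀ ≤ j → ∀ u, UU j₀ j ≤ u → u ≤ UU j₀ (j + 1) → ∀ P : Polynomial ℝ, P.natDegree < 4 * Q + 4 →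
    ∑ p ∈ CC Q j, w p u * P.eval (vv Q j₀ p) = P.eval u

/-- TASK LAGA (abstract: averaged Lagrange interpolation on separated groups of nodes). -/
def TaskLagA : Prop := ∀ (m : ℕ) (a b K : ℝ), 1 ≤ m → a < b → 1 ≤ K → ∀ (G : Fin m → Finset ℕ) (x : ℕ → ℝ),
  (∀ i, (G i).Nonempty) → (∀ i, ∀ p ∈ G i, a ≤ x p ∧ x p ≤ b) →
  (∀ i l, i ≠ l → ∀ p ∈ G i, ∀ q ∈ G l, (b - a) / K ≤ |x p - x q|) →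
  ∃ w : ℕ → ℝ → ℝ, (∀ p, Continuous (w p)) ∧ (∀ p, (∀ i, p ∉ G i) → ∀ u, w p u = 0) ∧
    (∀ i, ∀ p ∈ G i, ∀ u, a ≤ u → u ≤ b → |w p u| ≤ K ^ (m - 1) / (G i).card) ∧
    ∀ S : Finset ℕ, (∀ i, G i ⊆ S) → (∀ u, a ≤ u → u ≤ b → ∑ p ∈ S, |w p u| ≤ m * K ^ (m - 1)) ∧
      ∀ P : Polynomial ℝ, P.natDegree < m → ∀ u, ∑ p ∈ S, w p u * P.eval (x p) = P.eval u

/-- TASK LAG (interpolation weights on the primes of the cells). -/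
def TaskLag : Prop := TaskLagA → Hoheisel → ∃ Q₀ : ℕ, ∀ Q : ℕ, Q₀ ≤ Q → ∃ C : ℝ, 0 < C ∧ ∃ J₀ : ℕ, ∀ j₀ : ℕ, J₀ ≤ j₀ →
  ∀ (C₁ : ℝ) (X : ℕ → ℕ) (P0 : ℕ → Finset ℕ) (a0 : ℕ → ℝ), Base C₁ X P0 a0 → j₀ ^ (2 * Q) ≤ X 0 →
    ∃ w : ℕ → ℝ → ℝ, Wts Q j₀ C a0 w

/-- TASK BASE (existence of bases). -/
def TaskBase : Prop := Hoheisel → ∃ C₁ : ℝ, 0 < C₁ ∧ ∀ N : ℕ,
  ∃ (X : ℕ → ℕ) (P0 : ℕ → Finset ℕ) (a0 : ℕ → ℝ), N ≤ X 0 ∧ Base C₁ X P0 a0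

/-- TASK G1 (first moment). -/
def TaskG1 : Prop := ∀ Q : ℕ, 1 ≤ Q → ∀ s : ℝ, 0 < s → ∃ J₀ : ℕ, ∀ j₀ : ℕ, J₀ ≤ j₀ →
  ∀ (C₁ : ℝ) (X : ℕ → ℕ) (P0 : ℕ → Finset ℕ) (a0 : ℕ → ℝ), Base C₁ X P0 a0 → j₀ ^ (2 * Q) ≤ X 0 →
  ∀ T : Finset ℕ, ∑ m ∈ T.filter (fun m => Squarefree m ∧ 1 < m), (∏ p ∈ m.primeFactors, gg Q j₀ a0 p) / m ≤ s

/-- the bound for the mass of a part of the cell -/
def MassBd (good : ℕ → ℕ → ℕ → Prop) : Prop := ∃ Q₀ : ℕ, ∀ Q : ℕ, Q₀ ≤ Q → ∀ s : ℝ, 0 < s → ∃ J₀ : ℕ, ∀ j₀ : ℕ, J₀ ≤ j₀ →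
  ∀ (C₁ : ℝ) (X : ℕ → ℕ) (P0 : ℕ → Finset ℕ) (a0 : ℕ → ℝ), Base C₁ X P0 a0 → j₀ ^ (2 * Q) ≤ X 0 →
  ∀ j : ℕ, j₀ ≤ j → ∀ T : Finset ℕ, T ⊆ CC Q j → (∀ n ∈ T, Squarefree n ∧ ¬ (n.Prime ∧ a0 n = 0) ∧ good Q j n) →
    ∑ n ∈ T, ∏ p ∈ n.primeFactors, gg Q j₀ a0 p ≤ s * (CC Q j).card / (Real.log j) ^ 3

/-- TASK NS: the integers with a large prime factor. -/
def TaskNS : Prop := TaskG1 → MassBd (fun Q j n => ∃ p ∈ n.primeFactors, j ^ (2 * Q) ≤ p ^ 128)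

/-- TASK SMO: pointwise bound for smooth numbers. -/
def TaskSmo : Prop := ∃ C : ℝ, 0 ≤ C ∧ ∀ n : ℕ, 1 < n → Squarefree n →
  (∀ p ∈ n.primeFactors, 2 ≤ Real.log p ∧ 32 * Real.log p ≤ Real.log n) →
  ∏ p ∈ n.primeFactors, (2 / (Real.log p) ^ 2) ≤ C / (Real.log n) ^ 8

/-- TASK SM: the smooth integers. -/
def TaskSm : Prop := TaskG1 → TaskSmo → MassBd (fun Q j n => ∀ p ∈ n.primeFactors, p ^ 128 < j ^ (2 * Q))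

/-- the defect of the weights, tested on the kernel -/
noncomputable def EE (Q j₀ : ℕ) (w : ℕ → ℝ → ℝ) (j : ℕ) (u v : ℝ) : ℝ :=
  KK (4 * Q + 4) u v - ∑ p ∈ CC Q j, w p u * KK (4 * Q + 4) (vv Q j₀ p) v

/-- TASK DEF (Taylor expansion on a cell). -/
def TaskDef : Prop := TaskKer1 → TaskKer2 → ∀ (Q j₀ : ℕ) (C : ℝ) (a0 : ℕ → ℝ) (w : ℕ → ℝ → ℝ), 1 ≤ Q → 1 ≤ j₀ →
  Wts Q j₀ C a0 w → ∀ j : ℕ, j₀ ≤ j → ∀ u : ℝ, UU j₀ j ≤ u → u ≤ UU j₀ (j + 1) → ∀ v : ℝ, 0 ≤ v →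
    |EE Q j₀ w j u v| ≤ (1 + C) * (UU j₀ (j + 1) - UU j₀ j) ^ (2 * Q + 1) * (v / UU j₀ j) ^ (3 * Q + 2) ∧
    |EE Q j₀ w j u v| ≤ 3 * (1 + C) * (UU j₀ (j + 1) - UU j₀ j) ^ (4 * Q + 4) * v ^ (8 * Q + 7)

/-- TASK SUM (convergent sums over the cells), `h = UU (j+1) - UU j`. -/
def TaskSum : Prop := ∃ Q₀ : ℕ, ∀ Q : ℕ, Q₀ ≤ Q → ∃ C : ℝ, 0 < C ∧ ∃ J₀ : ℕ, ∀ j₀ : ℕ, J₀ ≤ j₀ →
  (Summable (fun i : ℕ => ((CC Q (j₀ + i)).card : ℝ) * UU j₀ (j₀ + i + 1) ^ 2 *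
      (UU j₀ (j₀ + i + 1) - UU j₀ (j₀ + i)) ^ (2 * Q + 1) / UU j₀ (j₀ + i) ^ (3 * Q + 2)) ∧
    ∑' i : ℕ, ((CC Q (j₀ + i)).card : ℝ) * UU j₀ (j₀ + i + 1) ^ 2 *
      (UU j₀ (j₀ + i + 1) - UU j₀ (j₀ + i)) ^ (2 * Q + 1) / UU j₀ (j₀ + i) ^ (3 * Q + 2) ≤ C) ∧
  (Summable (fun i : ℕ => (UU j₀ (j₀ + i + 1) - UU j₀ (j₀ + i)) * UU j₀ (j₀ + i + 1) ^ (3 * Q + 2) *
      (UU j₀ (j₀ + i + 1) - UU j₀ (j₀ + i)) ^ (2 * Q + 1) / UU j₀ (j₀ + i) ^ (3 * Q + 2)) ∧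
    ∑' i : ℕ, (UU j₀ (j₀ + i + 1) - UU j₀ (j₀ + i)) * UU j₀ (j₀ + i + 1) ^ (3 * Q + 2) *
      (UU j₀ (j₀ + i + 1) - UU j₀ (j₀ + i)) ^ (2 * Q + 1) / UU j₀ (j₀ + i) ^ (3 * Q + 2) ≤ C / j₀) ∧
  (Summable (fun i : ℕ => ((CC Q (j₀ + i)).card : ℝ) * UU j₀ (j₀ + i + 1) ^ 2 *
      (UU j₀ (j₀ + i + 1) - UU j₀ (j₀ + i)) ^ (4 * Q + 4)) ∧
    ∑' i : ℕ, ((CC Q (j₀ + i)).card : ℝ) * UU j₀ (j₀ + i + 1) ^ 2 *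
      (UU j₀ (j₀ + i + 1) - UU j₀ (j₀ + i)) ^ (4 * Q + 4) ≤ C) ∧
  (Summable (fun i : ℕ => (UU j₀ (j₀ + i + 1) - UU j₀ (j₀ + i)) * UU j₀ (j₀ + i + 1) ^ (3 * Q + 2) *
      (UU j₀ (j₀ + i + 1) - UU j₀ (j₀ + i)) ^ (4 * Q + 4)) ∧
    ∑' i : ℕ, (UU j₀ (j₀ + i + 1) - UU j₀ (j₀ + i)) * UU j₀ (j₀ + i + 1) ^ (3 * Q + 2) *
      (UU j₀ (j₀ + i + 1) - UU j₀ (j₀ + i)) ^ (4 * Q + 4) ≤ C / j₀) ∧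
  (∀ j : ℕ, j₀ ≤ j → (UU j₀ (j + 1) - UU j₀ j) * UU j₀ (j + 1) ^ (3 * Q + 2) * (Real.log j) ^ 3 * (j₀ : ℝ) ^ (2 * Q) ≤
    C * (CC Q j).card * UU j₀ j ^ 2 * (Real.log j₀) ^ 3)

/-- contribution of the cell `j` -/
noncomputable def Bf (Q j₀ : ℕ) (y : ℕ → ℝ) (f : ℝ → ℝ) (j : ℕ) (v : ℝ) : ℝ :=
  ∑ n ∈ CC Q j, cf y n * (vv Q j₀ n) ^ 2 * KK (4 * Q + 4) (vv Q j₀ n) v
    - ∫ u in (UU j₀ j)..(UU j₀ (j + 1)), f u * KK (4 * Q + 4) u v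

/-- the solution of the fixed point equation -/
structure Sol (Q j₀ : ℕ) (a0 : ℕ → ℝ) (y : ℕ → ℝ) (f : ℝ → ℝ) : Prop where
  small : ∀ p : ℕ, p.Prime → a0 p = 0 → |y p| ≤ 1
  big : ∀ p, a0 p ≠ 0 → y p = a0 p
  low : ∀ p, p ≤ j₀ ^ (2 * Q) → y p = 0
  cont : Continuous f
  bd : ∃ κ : ℝ, ∀ v : ℝ, 0 ≤ v → |f v| ≤ κ * (1 + v) ^ (4 * Q + 3)
  sumb : ∃ M : ℕ → ℝ, Summable M ∧ ∀ (i : ℕ) (v : ℝ), 0 ≤ v → |Bf Q j₀ y f (j₀ + i) v| ≤ M i * v ^ (8 * Q + 7)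
  eq : ∀ v : ℝ, 0 ≤ v → f v = (vv Q j₀ 1) ^ 2 * KK (4 * Q + 4) (vv Q j₀ 1) v
    - (∫ u in (0:ℝ)..1, f u * KK (4 * Q + 4) u v) + ∑' i : ℕ, Bf Q j₀ y f (j₀ + i) v

/-- TASK FIX (helper96): existence of the solution. -/
def TaskFix : Prop := TaskKer1 → TaskKer2 → TaskDef → TaskSum → TaskLagA → TaskLag → TaskG1 → TaskSmo → TaskNS → TaskSm → Hoheisel →
  ∃ Q : ℕ, 2 ≤ Q ∧ ∃ J₀ : ℕ, ∀ j₀ : ℕ, J₀ ≤ j₀ →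
  ∀ (C₁ : ℝ) (X : ℕ → ℕ) (P0 : ℕ → Finset ℕ) (a0 : ℕ → ℝ), Base C₁ X P0 a0 → j₀ ^ (2 * Q) ≤ X 0 →
    ∃ (y : ℕ → ℝ) (f : ℝ → ℝ), Sol Q j₀ a0 y f

/-- TASK THETA: the solution gives the theta relation of weight `4 Q + 4`. -/
def TaskTheta : Prop := TaskKer1 → TaskKer2 → ∀ (Q j₀ : ℕ) (a0 y : ℕ → ℝ) (f : ℝ → ℝ), 1 ≤ Q → 2 ≤ j₀ → Sol Q j₀ a0 y f →
  (∃ C : ℝ, ∀ n : ℕ, 1 ≤ n → |cf y n| ≤ C * n) → ∀ t : ℝ, 0 < t →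
    ∑' n : ℕ, cf y n * (vv Q j₀ n) ^ 2 * Real.exp (-(vv Q j₀ n / t)) =
      t ^ (4 * Q + 4) * ∑' n : ℕ, cf y n * (vv Q j₀ n) ^ 2 * Real.exp (-(vv Q j₀ n * t))

/-- TASK GROW (Ramanujan bound). -/
def TaskGrow : Prop := ∀ (C₁ : ℝ) (X : ℕ → ℕ) (P0 : ℕ → Finset ℕ) (a0 : ℕ → ℝ), Base C₁ X P0 a0 → Real.exp 16 ≤ X 0 →
  ∀ y : ℕ → ℝ, (∀ p : ℕ, p.Prime → a0 p = 0 → |y p| ≤ 1) → (∀ p, a0 p ≠ 0 → y p = a0 p) →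
    (∀ ε : ℝ, 0 < ε → ∃ C : ℝ, ∀ n : ℕ, 1 ≤ n → |cf y n| ≤ C * (n : ℝ) ^ ε) ∧
    (∀ p : ℕ, p.Prime → |y p| ≤ (p : ℝ) ^ (1 / 4 : ℝ))

/-- TASK SEC (second moment). -/
def TaskSec : Prop := ∀ (C₁ : ℝ) (X : ℕ → ℕ) (P0 : ℕ → Finset ℕ) (a0 : ℕ → ℝ), 0 < C₁ → Base C₁ X P0 a0 →
  ∀ y : ℕ → ℝ, (∀ p, a0 p ≠ 0 → y p = a0 p) → ∀ K : ℝ, ∃ N : ℕ, 3 ≤ N ∧
    K * (1 + Real.log (Real.log N)) < ∑ p ∈ (Iic N).filter Nat.Prime, (y p) ^ 2 / (p : ℝ)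

/-- TASK SEL (wrapper): the theta relation gives an element of the Selberg class. -/
def TaskSel : Prop := TaskF → ∀ (Q j₀ : ℕ) (y : ℕ → ℝ), 1 ≤ Q → 2 ≤ j₀ →
  (∀ ε : ℝ, 0 < ε → ∃ C : ℝ, ∀ n : ℕ, 1 ≤ n → |cf y n| ≤ C * (n : ℝ) ^ ε) →
  (∀ p : ℕ, p.Prime → |y p| ≤ (p : ℝ) ^ (1 / 4 : ℝ)) →
  (∀ t : ℝ, 0 < t → ∑' n : ℕ, cf y n * (vv Q j₀ n) ^ 2 * Real.exp (-(vv Q j₀ n / t)) =
      t ^ (4 * Q + 4) * ∑' n : ℕ, cf y n * (vv Q j₀ n) ^ 2 * Real.exp (-(vv Q j₀ n * t))) →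
  SS (fun n => (cf y n : ℂ))

/-- the result of the construction -/
def Elt2 : Prop := ∃ a : ℕ → ℂ, SS a ∧ NT a ∧ ∀ K : ℝ, ∃ N : ℕ, 3 ≤ N ∧
    K * (1 + Real.log (Real.log N)) < ∑ p ∈ (Iic N).filter Nat.Prime, ‖a p‖ ^ 2 / (p : ℝ)

end Pool.Agent.H96R3.BC
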