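import Mathlib
import Pool.Agent.H96R3.BC.Stmts

/-! # The linear part of the fixed point map (statement of FIXB) -/

set_option autoImplicit false

open Finset

namespace Pool.Agent.H96R3.BC

/-- majorant of `f` -/
noncomputable def NN (Q : ℕ) (v : ℝ) : ℝ := if v ≤ 1 then v ^ (4 * Q + 3) else v ^ (3 * Q + 2)

open Classical in
/-- the integers of the cell which are not non-base primes -/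
noncomputable def NB (Q : ℕ) (a0 : ℕ → ℝ) (j : ℕ) : Finset ℕ := (CC Q j).filter (fun n => ¬ (n.Prime ∧ a0 n = 0))

/-- new coefficient of the prime `p` of the cell `j` -/
noncomputable def XL (Q j₀ : ℕ) (a0 : ℕ → ℝ) (w : ℕ → ℝ → ℝ) (c : ℕ → ℝ) (f : ℝ → ℝ) (j p : ℕ) : ℝ :=
  ((∫ u in (UU j₀ j)..(UU j₀ (j + 1)), f u * w p u) -
    ∑ n ∈ NB Q a0 j, c n * (vv Q j₀ n) ^ 2 * w p (vv Q j₀ n)) / (vv Q j₀ p) ^ 2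

/-- contribution of the cell `j` to the new density -/
noncomputable def BL (Q j₀ : ℕ) (a0 : ℕ → ℝ) (w : ℕ → ℝ → ℝ) (c : ℕ → ℝ) (f : ℝ → ℝ) (j : ℕ) (v : ℝ) : ℝ :=
  ∑ n ∈ NB Q a0 j, c n * (vv Q j₀ n) ^ 2 * EE Q j₀ w j (vv Q j₀ n) v -
    ∫ u in (UU j₀ j)..(UU j₀ (j + 1)), f u * EE Q j₀ w j u v

/-- new density, linear part -/
noncomputable def FL (Q j₀ : ℕ) (a0 : ℕ → ℝ) (w : ℕ → ℝ → ℝ) (c : ℕ → ℝ) (f : ℝ → ℝ) (v : ℝ) : ℝ :=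
  -(∫ u in (0:ℝ)..1, f u * KK (4 * Q + 4) u v) + ∑' i : ℕ, BL Q j₀ a0 w c f (j₀ + i) v

/-- TASK FIXB: linear estimates. -/
def TaskFixB : Prop := TaskKer1 → TaskKer2 → TaskDef → TaskSum → ∃ Q₀ : ℕ, ∀ Q : ℕ, Q₀ ≤ Q → ∀ C : ℝ, 0 < C →
  ∃ s : ℝ, 0 < s ∧ ∃ J₀ : ℕ, ∀ j₀ : ℕ, J₀ ≤ j₀ → ∃ κ : ℝ, 0 < κ ∧
    (∀ v : ℝ, 0 ≤ v → |(vv Q j₀ 1) ^ 2 * KK (4 * Q + 4) (vv Q j₀ 1) v| ≤ κ / 4 * NN Q v) ∧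
    ∀ (a0 : ℕ → ℝ) (w : ℕ → ℝ → ℝ), Wts Q j₀ C a0 w → ∀ (c : ℕ → ℝ) (f : ℝ → ℝ) (D : ℝ), 0 ≤ D → Continuous f →
      (∀ j, j₀ ≤ j → ∑ n ∈ NB Q a0 j, |c n| ≤ D * (s * (CC Q j).card / (Real.log j) ^ 3)) →
      (∀ v : ℝ, 0 ≤ v → |f v| ≤ D * (κ * NN Q v)) →
      (∀ j, j₀ ≤ j → ∀ p ∈ CC Q j, p.Prime → |XL Q j₀ a0 w c f j p| ≤ D / 2 * (1 / (Real.log p) ^ 2)) ∧
      (∀ v : ℝ, 0 ≤ v → |FL Q j₀ a0 w c f v| ≤ D / 2 * (κ * NN Q v)) ∧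
      (Continuous fun v : ℝ => FL Q j₀ a0 w c f (max v 0)) ∧
      (∃ M : ℕ → ℝ, Summable M ∧ ∀ (i : ℕ) (v : ℝ), 0 ≤ v → |BL Q j₀ a0 w c f (j₀ + i) v| ≤ M i * v ^ (8 * Q + 7))

end Pool.Agent.H96R3.BC
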