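import Mathlib
import Pool.Agent.H96R3.BC.Stmts

/-! # Basic facts on cells and nodes, and Picard iteration in a weighted sup norm -/

set_option autoImplicit false

open Finset

namespace Pool.Agent.H96R3.BC

lemma mem_CC {Q j n : ℕ} : n ∈ CC Q j ↔ j ^ (2 * Q) < n ∧ n ≤ (j + 1) ^ (2 * Q) := by
  unfold CC; exact Finset.mem_Ioc

lemma CC_unique {Q j j' n : ℕ} (h : n ∈ CC Q j) (h' : n ∈ CC Q j') : j = j' := by
  rw [mem_CC] at h h'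
  by_contra hne
  rcases Nat.lt_or_gt_of_ne hne with hlt | hlt
  · have : (j + 1) ^ (2 * Q) ≤ j' ^ (2 * Q) := Nat.pow_le_pow_left hlt _
    omega
  · have : (j' + 1) ^ (2 * Q) ≤ j ^ (2 * Q) := Nat.pow_le_pow_left hlt _
    omega

lemma UU_nonneg (j₀ j : ℕ) : 0 ≤ UU j₀ j := Real.sqrt_nonneg _

lemma UU_self {j₀ : ℕ} (h : 1 ≤ j₀) : UU j₀ j₀ = 1 := by
  unfold UU
  have : (j₀ : ℝ) ≠ 0 := by positivity
  rw [div_self this, Real.sqrt_one]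

lemma UU_mono {j₀ i j : ℕ} (h : i ≤ j) : UU j₀ i ≤ UU j₀ j := by
  unfold UU
  apply Real.sqrt_le_sqrt
  gcongr

lemma one_le_UU {j₀ j : ℕ} (h : 1 ≤ j₀) (hj : j₀ ≤ j) : 1 ≤ UU j₀ j := by
  rw [← UU_self h]; exact UU_mono hj

lemma UU_pos {j₀ j : ℕ} (h : 1 ≤ j₀) (hj : j₀ ≤ j) : 0 < UU j₀ j := lt_of_lt_of_le one_pos (one_le_UU h hj)

lemma UU_sq (j₀ j : ℕ) : UU j₀ j ^ 2 = (j : ℝ) / j₀ := by
  unfold UU
  rw [Real.sq_sqrt (by positivity)]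

lemma UU_succ_sq_le {j₀ j : ℕ} (hj : 1 ≤ j) : UU j₀ (j + 1) ^ 2 ≤ 2 * UU j₀ j ^ 2 := by
  rw [UU_sq, UU_sq, ← mul_div_assoc]
  gcongr
  push_cast
  have : (1:ℝ) ≤ j := by exact_mod_cast hj
  linarith

lemma vv_nonneg (Q j₀ n : ℕ) : 0 ≤ vv Q j₀ n := by unfold vv; positivity

lemma vv_pow {Q j₀ : ℕ} (hQ : 1 ≤ Q) (n : ℕ) : vv Q j₀ n ^ (4 * Q) = (n : ℝ) / (j₀ : ℝ) ^ (2 * Q) := by
  unfold vv
  rw [← Real.rpow_natCast, ← Real.rpow_mul (by positivity)]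
  have : (1 / (4 * (Q:ℝ))) * ((4 * Q : ℕ) : ℝ) = 1 := by
    push_cast
    have : (Q:ℝ) ≠ 0 := by positivity
    field_simp
  rw [this, Real.rpow_one]

lemma vv_pos {Q j₀ n : ℕ} (hj : 1 ≤ j₀) (hn : 1 ≤ n) : 0 < vv Q j₀ n := by
  unfold vv
  have : (0:ℝ) < n := by exact_mod_cast hn
  have : (0:ℝ) < j₀ := by exact_mod_cast hj
  positivity

lemma UU_pow {Q j₀ j : ℕ} : UU j₀ j ^ (4 * Q) = (j : ℝ) ^ (2 * Q) / (j₀ : ℝ) ^ (2 * Q) := by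
  have : 4 * Q = 2 * (2 * Q) := by ring
  rw [this, pow_mul, UU_sq, div_pow]

lemma vv_mem {Q j₀ j n : ℕ} (hQ : 1 ≤ Q) (hn : n ∈ CC Q j) :
    UU j₀ j ≤ vv Q j₀ n ∧ vv Q j₀ n ≤ UU j₀ (j + 1) := by
  rw [mem_CC] at hn
  have h4 : 4 * Q ≠ 0 := by omega
  constructor
  · apply le_of_pow_le_pow_left₀ h4 (vv_nonneg _ _ _)
    rw [vv_pow hQ, UU_pow]
    gcongr
    exact_mod_cast hn.1.le
  · apply le_of_pow_le_pow_left₀ h4 (UU_nonneg _ _)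
    rw [vv_pow hQ, UU_pow]
    gcongr
    exact_mod_cast hn.2

lemma vv_one_pow {Q j₀ : ℕ} (hQ : 1 ≤ Q) (hj : 1 ≤ j₀) : vv Q j₀ 1 ^ (2 * Q) * (j₀ : ℝ) ^ Q = 1 := by
  have h1 : (vv Q j₀ 1 ^ (2 * Q) * (j₀ : ℝ) ^ Q) ^ 2 = 1 := by
    rw [mul_pow, ← pow_mul, ← pow_mul]
    have e1 : 2 * Q * 2 = 4 * Q := by ring
    have e2 : Q * 2 = 2 * Q := by ring
    rw [e1, e2, vv_pow hQ]
    have : (j₀ : ℝ) ^ (2 * Q) ≠ 0 := by positivity
    field_simp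
    norm_num
  have h0 : 0 ≤ vv Q j₀ 1 ^ (2 * Q) * (j₀ : ℝ) ^ Q := by
    have := vv_nonneg Q j₀ 1
    positivity
  nlinarith

lemma vv_one_le {Q j₀ : ℕ} (hQ : 1 ≤ Q) (hj : 1 ≤ j₀) : vv Q j₀ 1 ≤ 1 := by
  have h4 : 4 * Q ≠ 0 := by omega
  apply le_of_pow_le_pow_left₀ h4 zero_le_one
  rw [vv_pow hQ, one_pow]
  rw [div_le_one (by positivity)]
  exact_mod_cast Nat.one_le_pow _ _ hj

/-- Picard iteration in a weighted sup norm. -/
theorem picard {ι : Type*} (W : ι → ℝ) (hW : ∀ i, 0 ≤ W i) (C : Set (ι → ℝ))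
    (hcl : ∀ (g : ℕ → ι → ℝ) (l : ι → ℝ), (∀ n, g n ∈ C) →
      (∀ n i, |g n i - l i| ≤ 2 * (1 / 2) ^ n * W i) → l ∈ C)
    (Φ : (ι → ℝ) → ι → ℝ) (h0 : (fun _ => 0) ∈ C)
    (hC : ∀ g ∈ C, (∀ i, |g i| ≤ W i) → Φ g ∈ C)
    (hB : ∀ g ∈ C, (∀ i, |g i| ≤ W i) → ∀ i, |Φ g i| ≤ W i)
    (hL : ∀ g ∈ C, ∀ g' ∈ C, (∀ i, |g i| ≤ W i) → (∀ i, |g' i| ≤ W i) → ∀ D : ℝ, 0 ≤ D →
      (∀ i, |g i - g' i| ≤ D * W i) → ∀ i, |Φ g i - Φ g' i| ≤ D / 2 * W i) :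
    ∃ g ∈ C, (∀ i, |g i| ≤ W i) ∧ ∀ i, Φ g i = g i := by
  set g : ℕ → ι → ℝ := fun n => Φ^[n] (fun _ => 0) with hg
  have hg0 : g 0 = fun _ => 0 := rfl
  have hgs : ∀ n, g (n + 1) = Φ (g n) := fun n => by
    rw [hg]; exact Function.iterate_succ_apply' _ _ _
  have hmem : ∀ n, g n ∈ C ∧ ∀ i, |g n i| ≤ W i := by
    intro n
    induction n with
    | zero => rw [hg0]; exact ⟨h0, fun i => by simpa using hW i⟩
    | succ n ih => rw [hgs]; exact ⟨hC _ ih.1 ih.2, hB _ ih.1 ih.2⟩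
  have hstep : ∀ n i, |g (n + 1) i - g n i| ≤ (1 / 2) ^ n * W i := by
    intro n
    induction n with
    | zero =>
      intro i
      rw [hg0]
      simpa using (hmem 1).2 i
    | succ n ih =>
      intro i
      rw [hgs (n + 1), hgs n]
      have h := hL (g (n + 1)) (hmem _).1 (g n) (hmem _).1 (hmem _).2 (hmem _).2 ((1 / 2) ^ n) (by positivity) ih i
      rw [hgs n] at h
      calc _ ≤ (1 / 2) ^ n / 2 * W i := h
        _ = _ := by rw [pow_succ]; ring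
  have hcau : ∀ i, ∃ l, Filter.Tendsto (fun n => g n i) Filter.atTop (nhds l) ∧ ∀ n, |g n i - l| ≤ 2 * (1 / 2) ^ n * W i := by
    intro i
    have hd : ∀ n, dist (g n i) (g (n + 1) i) ≤ W i * (1 / 2) ^ n := by
      intro n
      rw [dist_comm, Real.dist_eq, mul_comm]
      exact hstep n i
    obtain ⟨l, hl⟩ := cauchySeq_tendsto_of_complete (cauchySeq_of_le_geometric (1 / 2) (W i) (by norm_num) hd)
    refine ⟨l, hl, fun n => ?_⟩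
    have := dist_le_of_le_geometric_of_tendsto (1 / 2) (W i) (by norm_num) hd hl n
    rw [Real.dist_eq] at this
    refine this.trans (le_of_eq ?_)
    ring
  choose l hl hl2 using hcau
  have hlC : l ∈ C := hcl g l (fun n => (hmem n).1) (fun n i => hl2 i n)
  have hlW : ∀ i, |l i| ≤ W i := fun i =>
    le_of_tendsto ((continuous_abs.tendsto _).comp (hl i)) (Filter.Eventually.of_forall fun n => (hmem n).2 i)
  refine ⟨l, hlC, hlW, fun i => ?_⟩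
  have h1 : ∀ n, |Φ l i - g (n + 1) i| ≤ (1 / 2) ^ n * W i := by
    intro n
    rw [hgs]
    have h := hL l hlC (g n) (hmem n).1 hlW (hmem n).2 (2 * (1 / 2) ^ n) (by positivity)
      (fun i => by rw [abs_sub_comm]; exact hl2 i n) i
    refine h.trans (le_of_eq ?_)
    ring
  have h2 : Filter.Tendsto (fun n => g (n + 1) i) Filter.atTop (nhds (Φ l i)) := by
    rw [tendsto_iff_norm_sub_tendsto_zero]
    have h3 : Filter.Tendsto (fun n : ℕ => (1 / 2 : ℝ) ^ n * W i) Filter.atTop (nhds 0) := by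
      have := (tendsto_pow_atTop_nhds_zero_of_lt_one (r := (1/2:ℝ)) (by norm_num) (by norm_num)).mul_const (W i)
      simpa using this
    refine squeeze_zero (fun n => norm_nonneg _) (fun n => ?_) h3
    rw [Real.norm_eq_abs, abs_sub_comm]
    exact h1 n
  exact tendsto_nhds_unique h2 ((Filter.tendsto_add_atTop_iff_nat 1).2 (hl i))

end Pool.Agent.H96R3.BC
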