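import Mathlib
import Pool.Agent.H96R3.BC.Stmts
import Pool.Agent.H96R3.BC.Basic
import Pool.Agent.H96R3.BC.FixDefs

set_option autoImplicit false

open Finset

namespace Pool.Agent.H96R3.BC

/-- total mass of the cell -/
lemma mass_comb {g₁ g₂ : ℕ → ℕ → ℕ → Prop} (hg : ∀ Q j n, g₁ Q j n ∨ g₂ Q j n) (h₁ : MassBd g₁) (h₂ : MassBd g₂) :
    MassBd (fun _ _ _ => True) := by
  obtain ⟨Q₁, h₁⟩ := h₁
  obtain ⟨Q₂, h₂⟩ := h₂
  refine ⟨max Q₁ Q₂, fun Q hQ s hs => ?_⟩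
  obtain ⟨J₁, h₁⟩ := h₁ Q ((le_max_left _ _).trans hQ) (s / 2) (by positivity)
  obtain ⟨J₂, h₂⟩ := h₂ Q ((le_max_right _ _).trans hQ) (s / 2) (by positivity)
  refine ⟨max J₁ J₂, fun j₀ hj₀ C₁ X P0 a0 hB hX j hj T hT hT2 => ?_⟩
  have a₁ := h₁ j₀ ((le_max_left _ _).trans hj₀) C₁ X P0 a0 hB hX j hj
  have a₂ := h₂ j₀ ((le_max_right _ _).trans hj₀) C₁ X P0 a0 hB hX j hj
  classical
  have b₁ := a₁ (T.filter (fun n => g₁ Q j n)) ((filter_subset _ _).trans hT)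
    (fun n hn => by
      rw [mem_filter] at hn
      exact ⟨(hT2 n hn.1).1, (hT2 n hn.1).2.1, hn.2⟩)
  have b₂ := a₂ (T.filter (fun n => ¬ g₁ Q j n)) ((filter_subset _ _).trans hT)
    (fun n hn => by
      rw [mem_filter] at hn
      exact ⟨(hT2 n hn.1).1, (hT2 n hn.1).2.1, (hg Q j n).resolve_left hn.2⟩)
  rw [← sum_filter_add_sum_filter_not T (fun n => g₁ Q j n)]
  refine (add_le_add b₁ b₂).trans (le_of_eq ?_)
  ring

lemma mass_all (hG1 : TaskG1) (hSmo : TaskSmo) (hNS : TaskNS) (hSm : TaskSm) : MassBd (fun _ _ _ => True) := by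
  refine mass_comb (fun Q j n => ?_) (hNS hG1) (hSm hG1 hSmo)
  by_cases h : ∃ p ∈ n.primeFactors, j ^ (2 * Q) ≤ p ^ 128
  · exact Or.inl h
  · right
    push Not at h
    exact h

/-- products: difference bound -/
lemma prod_diff (S : Finset ℕ) (a b M δ G : ℕ → ℝ) {D : ℝ} (hD : 0 ≤ D) (ha : ∀ i ∈ S, |a i| ≤ M i) (hb : ∀ i ∈ S, |b i| ≤ M i)
    (hδ0 : ∀ i ∈ S, 0 ≤ δ i) (hδ : ∀ i ∈ S, |a i - b i| ≤ D * δ i) (hG : ∀ i ∈ S, M i + δ i ≤ G i) :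
    |∏ i ∈ S, a i - ∏ i ∈ S, b i| ≤ D * ∏ i ∈ S, G i ∧ |∏ i ∈ S, a i| ≤ ∏ i ∈ S, G i := by
  induction S using Finset.induction_on with
  | empty => simp; exact hD
  | insert i S hi ih =>
    have ih' := ih (fun j hj => ha j (mem_insert_of_mem hj)) (fun j hj => hb j (mem_insert_of_mem hj))
      (fun j hj => hδ0 j (mem_insert_of_mem hj)) (fun j hj => hδ j (mem_insert_of_mem hj)) (fun j hj => hG j (mem_insert_of_mem hj))
    rw [prod_insert hi, prod_insert hi, prod_insert hi]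
    have h1 := ha i (mem_insert_self _ _)
    have h2 := hb i (mem_insert_self _ _)
    have h3 := hδ i (mem_insert_self _ _)
    have h4 := hG i (mem_insert_self _ _)
    have h5 := hδ0 i (mem_insert_self _ _)
    have hM : 0 ≤ M i := (abs_nonneg _).trans h1
    have hGi : 0 ≤ G i := by linarith
    have hPG : 0 ≤ ∏ j ∈ S, G j := (abs_nonneg _).trans ih'.2
    constructor
    · have e : a i * ∏ j ∈ S, a j - b i * ∏ j ∈ S, b j = (a i - b i) * ∏ j ∈ S, a j + b i * (∏ j ∈ S, a j - ∏ j ∈ S, b j) := by ring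
      rw [e]
      calc _ ≤ |(a i - b i) * ∏ j ∈ S, a j| + |b i * (∏ j ∈ S, a j - ∏ j ∈ S, b j)| := abs_add_le _ _
        _ = |a i - b i| * |∏ j ∈ S, a j| + |b i| * |∏ j ∈ S, a j - ∏ j ∈ S, b j| := by rw [abs_mul, abs_mul]
        _ ≤ (D * δ i) * ∏ j ∈ S, G j + M i * (D * ∏ j ∈ S, G j) := by
            apply add_le_add
            · exact mul_le_mul h3 ih'.2 (abs_nonneg _) (by positivity)
            · exact mul_le_mul h2 ih'.1 (abs_nonneg _) hM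
        _ = D * ((M i + δ i) * ∏ j ∈ S, G j) := by ring
        _ ≤ D * (G i * ∏ j ∈ S, G j) := by gcongr
    · rw [abs_mul]
      exact mul_le_mul (by linarith) ih'.2 (abs_nonneg _) hGi

/-- total prime coefficient -/
noncomputable def Yy (a0 x : ℕ → ℝ) (p : ℕ) : ℝ := if a0 p ≠ 0 then a0 p else x p

/-- weight of the prime coefficients -/
noncomputable def W1 (Q j₀ : ℕ) (a0 : ℕ → ℝ) (p : ℕ) : ℝ :=
  if p.Prime ∧ a0 p = 0 ∧ j₀ ^ (2 * Q) < p then 1 / (Real.log p) ^ 2 else 0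

lemma W1_nonneg (Q j₀ : ℕ) (a0 : ℕ → ℝ) (p : ℕ) : 0 ≤ W1 Q j₀ a0 p := by
  unfold W1; split_ifs <;> positivity

lemma AA_pos (X : ℕ) : 0 < AA X := Real.exp_pos _

lemma Base.nonneg {C₁ : ℝ} {X : ℕ → ℕ} {P0 : ℕ → Finset ℕ} {a0 : ℕ → ℝ} (h : Base C₁ X P0 a0) (p : ℕ) : 0 ≤ a0 p := by
  by_cases hp : ∃ i, p ∈ P0 i
  · obtain ⟨i, hi⟩ := hp
    rw [h.val i p hi]; exact (AA_pos _).le
  · push Not at hp
    rw [h.off p hp]

lemma Base.X_mono {C₁ : ℝ} {X : ℕ → ℕ} {P0 : ℕ → Finset ℕ} {a0 : ℕ → ℝ} (h : Base C₁ X P0 a0) : Monotone X := by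
  apply monotone_nat_of_le_succ
  intro i
  have h1 := h.tower i
  have h2 : (X i : ℝ) ≤ Real.exp (Real.exp ((X i : ℝ) ^ 2)) := by
    have a1 := Real.add_one_le_exp ((X i : ℝ) ^ 2)
    have a2 := Real.add_one_le_exp (Real.exp ((X i : ℝ) ^ 2))
    nlinarith [sq_nonneg ((X i : ℝ) - 1)]
  exact_mod_cast h2.trans h1

lemma Base.lt_of_ne {C₁ : ℝ} {X : ℕ → ℕ} {P0 : ℕ → Finset ℕ} {a0 : ℕ → ℝ} (h : Base C₁ X P0 a0) {p : ℕ} (hp : a0 p ≠ 0) :
    p.Prime ∧ X 0 < p := by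
  by_cases hp' : ∃ i, p ∈ P0 i
  · obtain ⟨i, hi⟩ := hp'
    have h1 := h.mem i p hi
    exact ⟨h1.1, lt_of_le_of_lt (h.X_mono (Nat.zero_le i)) h1.2.1⟩
  · push Not at hp'
    exact absurd (h.off p hp') hp

/-- majorants for `cf` and differences -/
lemma cf_diff {Q j₀ : ℕ} {a0 x x' : ℕ → ℝ} (ha0 : ∀ p, 0 ≤ a0 p) (hx : ∀ p, |x p| ≤ W1 Q j₀ a0 p) (hx' : ∀ p, |x' p| ≤ W1 Q j₀ a0 p)
    {D : ℝ} (hD : 0 ≤ D) (hd : ∀ p, |x p - x' p| ≤ D * W1 Q j₀ a0 p) (n : ℕ) :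
    |cf (Yy a0 x) n - cf (Yy a0 x') n| ≤ D * (if Squarefree n then ∏ p ∈ n.primeFactors, gg Q j₀ a0 p else 0) ∧
    |cf (Yy a0 x) n| ≤ (if Squarefree n then ∏ p ∈ n.primeFactors, gg Q j₀ a0 p else 0) := by
  unfold cf
  split_ifs with hs
  · refine prod_diff n.primeFactors (Yy a0 x) (Yy a0 x') (fun p => if a0 p ≠ 0 then a0 p else W1 Q j₀ a0 p)
      (fun p => if a0 p ≠ 0 then 0 else W1 Q j₀ a0 p) (gg Q j₀ a0) hD ?_ ?_ ?_ ?_ ?_
    · intro p _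
      unfold Yy
      split_ifs with h
      · rw [abs_of_nonneg (ha0 p)]
      · exact hx p
    · intro p _
      unfold Yy
      split_ifs with h
      · rw [abs_of_nonneg (ha0 p)]
      · exact hx' p
    · intro p _
      show (0:ℝ) ≤ if a0 p ≠ 0 then 0 else W1 Q j₀ a0 p
      split_ifs
      · exact le_rfl
      · exact W1_nonneg _ _ _ _
    · intro p _
      unfold Yy
      show |(if a0 p ≠ 0 then a0 p else x p) - if a0 p ≠ 0 then a0 p else x' p| ≤ D * if a0 p ≠ 0 then 0 else W1 Q j₀ a0 p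
      split_ifs with h
      · simp
      · exact hd p
    · intro p hp
      show (if a0 p ≠ 0 then a0 p else W1 Q j₀ a0 p) + (if a0 p ≠ 0 then 0 else W1 Q j₀ a0 p) ≤ gg Q j₀ a0 p
      unfold gg
      split_ifs with h h2
      · simp
      · unfold W1
        split_ifs with h3
        · apply le_of_eq; ring
        · simp; positivity
      · unfold W1
        rw [if_neg (fun h3 => h2 h3.2.2)]
        simp
  · simp

/-- mass of the nonlinear terms -/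
lemma mass_cf {Q j₀ : ℕ} {s : ℝ} {a0 : ℕ → ℝ} {j : ℕ} (ha0 : ∀ p, 0 ≤ a0 p)
    (hm : ∀ T : Finset ℕ, T ⊆ CC Q j → (∀ n ∈ T, Squarefree n ∧ ¬ (n.Prime ∧ a0 n = 0) ∧ True) →
      ∑ n ∈ T, ∏ p ∈ n.primeFactors, gg Q j₀ a0 p ≤ s * (CC Q j).card / (Real.log j) ^ 3)
    {x x' : ℕ → ℝ} (hx : ∀ p, |x p| ≤ W1 Q j₀ a0 p) (hx' : ∀ p, |x' p| ≤ W1 Q j₀ a0 p)
    {D : ℝ} (hD : 0 ≤ D) (hd : ∀ p, |x p - x' p| ≤ D * W1 Q j₀ a0 p) :
    ∑ n ∈ NB Q a0 j, |cf (Yy a0 x) n - cf (Yy a0 x') n| ≤ D * (s * (CC Q j).card / (Real.log j) ^ 3) ∧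
    ∑ n ∈ NB Q a0 j, |cf (Yy a0 x) n| ≤ s * (CC Q j).card / (Real.log j) ^ 3 := by
  classical
  have key : ∑ n ∈ NB Q a0 j, (if Squarefree n then ∏ p ∈ n.primeFactors, gg Q j₀ a0 p else 0) ≤
      s * (CC Q j).card / (Real.log j) ^ 3 := by
    rw [← sum_filter]
    apply hm
    · intro n hn
      rw [mem_filter] at hn
      unfold NB at hn
      exact (mem_filter.1 hn.1).1
    · intro n hn
      rw [mem_filter] at hn
      unfold NB at hn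
      exact ⟨hn.2, (mem_filter.1 hn.1).2, trivial⟩
  constructor
  · calc _ ≤ ∑ n ∈ NB Q a0 j, D * (if Squarefree n then ∏ p ∈ n.primeFactors, gg Q j₀ a0 p else 0) :=
          sum_le_sum fun n _ => (cf_diff ha0 hx hx' hD hd n).1
      _ = D * ∑ n ∈ NB Q a0 j, (if Squarefree n then ∏ p ∈ n.primeFactors, gg Q j₀ a0 p else 0) := by rw [mul_sum]
      _ ≤ _ := mul_le_mul_of_nonneg_left key hD
  · exact (sum_le_sum fun n _ => (cf_diff ha0 hx hx' hD hd n).2).trans key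

end Pool.Agent.H96R3.BC
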