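import Mathlib
import Pool.Agent.H96R3.BC.Fix1

set_option autoImplicit false

open Finset

namespace Pool.Agent.H96R3.BC

lemma KK_cont_left (hK : TaskKer1) {k : ℕ} (hk : 1 ≤ k) (v : ℝ) : Continuous fun u : ℝ => KK k u v := by
  have h := (hK k hk).2.1
  exact h.comp (Continuous.prodMk continuous_id continuous_const)

lemma KK_cont_right (hK : TaskKer1) {k : ℕ} (hk : 1 ≤ k) (u : ℝ) : Continuous fun v : ℝ => KK k u v := by
  have h := (hK k hk).2.1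
  exact h.comp (Continuous.prodMk continuous_const continuous_id)

lemma EE_cont_left (hK : TaskKer1) {Q j₀ : ℕ} {C : ℝ} {a0 : ℕ → ℝ} {w : ℕ → ℝ → ℝ} (hw : Wts Q j₀ C a0 w) (j : ℕ) (v : ℝ) :
    Continuous fun u : ℝ => EE Q j₀ w j u v := by
  unfold EE
  refine (KK_cont_left hK (by omega) v).sub ?_
  exact continuous_finsetSum _ fun p _ => (hw.cont p).mul continuous_const

lemma cf_prime (y : ℕ → ℝ) {p : ℕ} (hp : p.Prime) : cf y p = y p := by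
  unfold cf
  rw [if_pos hp.prime.squarefree, Nat.Prime.primeFactors hp, prod_singleton]

/-- identification of `Bf` and `BL` for a fixed point -/
lemma Bf_eq_BL (hK : TaskKer1) {Q j₀ : ℕ} {C : ℝ} {a0 : ℕ → ℝ} {w : ℕ → ℝ → ℝ} (hw : Wts Q j₀ C a0 w)
    {y : ℕ → ℝ} {f : ℝ → ℝ} (hf : Continuous f) {j : ℕ} (hQ : 1 ≤ Q) (hj1 : 1 ≤ j₀) (hj : j₀ ≤ j)
    (hy : ∀ p ∈ CC Q j, p.Prime → a0 p = 0 → y p = XL Q j₀ a0 w (cf y) f j p) (v : ℝ) :
    Bf Q j₀ y f j v = BL Q j₀ a0 w (cf y) f j v := by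
  classical
  set a := UU j₀ j with ha
  set b := UU j₀ (j + 1) with hb
  set K : ℝ → ℝ := fun u => KK (4 * Q + 4) u v with hKdef
  have hKc : Continuous K := KK_cont_left hK (by omega) v
  set R : ℕ → ℝ := fun p => (∫ u in a..b, f u * w p u) - ∑ n ∈ NB Q a0 j, cf y n * (vv Q j₀ n) ^ 2 * w p (vv Q j₀ n) with hR
  have hI : ∫ u in a..b, f u * EE Q j₀ w j u v = (∫ u in a..b, f u * K u) -
      ∑ p ∈ CC Q j, (∫ u in a..b, f u * w p u) * K (vv Q j₀ p) := by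
    have e1 : ∀ u, f u * EE Q j₀ w j u v = f u * K u - ∑ p ∈ CC Q j, (f u * w p u) * K (vv Q j₀ p) := by
      intro u
      unfold EE
      rw [mul_sub, mul_sum]
      congr 1
      apply sum_congr rfl
      intro p _
      ring
    simp_rw [e1]
    rw [intervalIntegral.integral_sub, intervalIntegral.integral_finsetSum]
    · congr 1
      apply sum_congr rfl
      intro p _
      rw [intervalIntegral.integral_mul_const]
    · intro p _
      exact Continuous.intervalIntegrable ((hf.mul (hw.cont p)).mul continuous_const) _ _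
    · exact Continuous.intervalIntegrable (hf.mul hKc) _ _
    · exact Continuous.intervalIntegrable (continuous_finsetSum _ fun p _ => (hf.mul (hw.cont p)).mul continuous_const) _ _
  have hS : ∑ n ∈ NB Q a0 j, cf y n * (vv Q j₀ n) ^ 2 * EE Q j₀ w j (vv Q j₀ n) v =
      ∑ n ∈ NB Q a0 j, cf y n * (vv Q j₀ n) ^ 2 * K (vv Q j₀ n) -
      ∑ p ∈ CC Q j, (∑ n ∈ NB Q a0 j, cf y n * (vv Q j₀ n) ^ 2 * w p (vv Q j₀ n)) * K (vv Q j₀ p) := by
    simp_rw [sum_mul]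
    rw [sum_comm, ← sum_sub_distrib]
    apply sum_congr rfl
    intro n _
    unfold EE
    rw [mul_sub, mul_sum]
    congr 1
    apply sum_congr rfl
    intro p _
    ring
  have hmain : ∑ n ∈ CC Q j, cf y n * (vv Q j₀ n) ^ 2 * K (vv Q j₀ n) =
      ∑ n ∈ NB Q a0 j, cf y n * (vv Q j₀ n) ^ 2 * K (vv Q j₀ n) + ∑ p ∈ CC Q j, R p * K (vv Q j₀ p) := by
    have e1 : ∑ n ∈ CC Q j, cf y n * (vv Q j₀ n) ^ 2 * K (vv Q j₀ n) =
        ∑ n ∈ (CC Q j).filter (fun n => ¬ (n.Prime ∧ a0 n = 0)), cf y n * (vv Q j₀ n) ^ 2 * K (vv Q j₀ n) +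
        ∑ n ∈ (CC Q j).filter (fun n => n.Prime ∧ a0 n = 0), cf y n * (vv Q j₀ n) ^ 2 * K (vv Q j₀ n) := by
      rw [add_comm]
      exact (sum_filter_add_sum_filter_not _ _ _).symm
    have e2 : ∑ n ∈ (CC Q j).filter (fun n => n.Prime ∧ a0 n = 0), cf y n * (vv Q j₀ n) ^ 2 * K (vv Q j₀ n) =
        ∑ p ∈ CC Q j, R p * K (vv Q j₀ p) := by
      rw [sum_filter]
      apply sum_congr rfl
      intro p hp
      split_ifs with hpp
      · rw [cf_prime y hpp.1, hy p hp hpp.1 hpp.2]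
        have hp0 : vv Q j₀ p ≠ 0 := by
          have h1 := (vv_mem (j₀ := j₀) hQ hp).1
          have h2 := UU_pos hj1 hj
          linarith
        unfold XL
        rw [div_mul_cancel₀ _ (pow_ne_zero 2 hp0)]
      · have hw0 : ∀ u, w p u = 0 := by
          intro u
          by_contra h
          have := hw.supp p u h
          exact hpp ⟨this.1, this.2.1⟩
        rw [hR]
        simp [hw0]
    rw [e1, e2]
    congr 1
  unfold Bf BL
  rw [hI, hS]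
  have hmain' : ∑ n ∈ CC Q j, cf y n * (vv Q j₀ n) ^ 2 * KK (4 * Q + 4) (vv Q j₀ n) v =
      ∑ n ∈ NB Q a0 j, cf y n * (vv Q j₀ n) ^ 2 * K (vv Q j₀ n) + ∑ p ∈ CC Q j, R p * K (vv Q j₀ p) := hmain
  rw [hmain']
  have e3 : ∑ p ∈ CC Q j, R p * K (vv Q j₀ p) = ∑ p ∈ CC Q j, (∫ u in a..b, f u * w p u) * K (vv Q j₀ p) -
      ∑ p ∈ CC Q j, (∑ n ∈ NB Q a0 j, cf y n * (vv Q j₀ n) ^ 2 * w p (vv Q j₀ n)) * K (vv Q j₀ p) := by
    rw [← sum_sub_distrib]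
    apply sum_congr rfl
    intro p _
    rw [hR]
    ring
  rw [e3]
  show _ - (∫ u in a..b, f u * K u) = _
  ring

lemma int_sub_mul {f f' g : ℝ → ℝ} (hf : Continuous f) (hf' : Continuous f') (hg : Continuous g) (a b : ℝ) :
    ∫ u in a..b, (f u - f' u) * g u = (∫ u in a..b, f u * g u) - ∫ u in a..b, f' u * g u := by
  rw [← intervalIntegral.integral_sub (f := fun u => f u * g u) (g := fun u => f' u * g u)
    (Continuous.intervalIntegrable (hf.mul hg) _ _)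
    (Continuous.intervalIntegrable (hf'.mul hg) _ _)]
  congr 1; ext u; ring

/-- additivity -/
lemma XL_sub {Q j₀ : ℕ} {C : ℝ} {a0 : ℕ → ℝ} {w : ℕ → ℝ → ℝ} (hw : Wts Q j₀ C a0 w)
    {c c' : ℕ → ℝ} {f f' : ℝ → ℝ} (hf : Continuous f) (hf' : Continuous f') (j p : ℕ) :
    XL Q j₀ a0 w (fun n => c n - c' n) (fun u => f u - f' u) j p = XL Q j₀ a0 w c f j p - XL Q j₀ a0 w c' f' j p := by
  unfold XL
  have e1 : ∫ u in (UU j₀ j)..(UU j₀ (j + 1)), (f u - f' u) * w p u =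
      (∫ u in (UU j₀ j)..(UU j₀ (j + 1)), f u * w p u) - ∫ u in (UU j₀ j)..(UU j₀ (j + 1)), f' u * w p u :=
    int_sub_mul hf hf' (hw.cont p) _ _
  have e2 : ∑ n ∈ NB Q a0 j, (c n - c' n) * (vv Q j₀ n) ^ 2 * w p (vv Q j₀ n) =
      ∑ n ∈ NB Q a0 j, c n * (vv Q j₀ n) ^ 2 * w p (vv Q j₀ n) - ∑ n ∈ NB Q a0 j, c' n * (vv Q j₀ n) ^ 2 * w p (vv Q j₀ n) := by
    rw [← sum_sub_distrib]
    exact sum_congr rfl fun n _ => by ring
  rw [e1, e2]
  ring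

lemma BL_sub (hK : TaskKer1) {Q j₀ : ℕ} {C : ℝ} {a0 : ℕ → ℝ} {w : ℕ → ℝ → ℝ} (hw : Wts Q j₀ C a0 w)
    {c c' : ℕ → ℝ} {f f' : ℝ → ℝ} (hf : Continuous f) (hf' : Continuous f') (j : ℕ) (v : ℝ) :
    BL Q j₀ a0 w (fun n => c n - c' n) (fun u => f u - f' u) j v = BL Q j₀ a0 w c f j v - BL Q j₀ a0 w c' f' j v := by
  unfold BL
  have hE := EE_cont_left hK hw j v
  have e1 : ∫ u in (UU j₀ j)..(UU j₀ (j + 1)), (f u - f' u) * EE Q j₀ w j u v =
      (∫ u in (UU j₀ j)..(UU j₀ (j + 1)), f u * EE Q j₀ w j u v) - ∫ u in (UU j₀ j)..(UU j₀ (j + 1)), f' u * EE Q j₀ w j u v :=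
    int_sub_mul hf hf' hE _ _
  have e2 : ∑ n ∈ NB Q a0 j, (c n - c' n) * (vv Q j₀ n) ^ 2 * EE Q j₀ w j (vv Q j₀ n) v =
      ∑ n ∈ NB Q a0 j, c n * (vv Q j₀ n) ^ 2 * EE Q j₀ w j (vv Q j₀ n) v -
      ∑ n ∈ NB Q a0 j, c' n * (vv Q j₀ n) ^ 2 * EE Q j₀ w j (vv Q j₀ n) v := by
    rw [← sum_sub_distrib]
    exact sum_congr rfl fun n _ => by ring
  rw [e1, e2]
  ring

lemma FL_sub (hK : TaskKer1) {Q j₀ : ℕ} {C : ℝ} {a0 : ℕ → ℝ} {w : ℕ → ℝ → ℝ} (hw : Wts Q j₀ C a0 w)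
    {c c' : ℕ → ℝ} {f f' : ℝ → ℝ} (hf : Continuous f) (hf' : Continuous f') (v : ℝ)
    (hs : Summable fun i : ℕ => BL Q j₀ a0 w c f (j₀ + i) v) (hs' : Summable fun i : ℕ => BL Q j₀ a0 w c' f' (j₀ + i) v) :
    FL Q j₀ a0 w (fun n => c n - c' n) (fun u => f u - f' u) v = FL Q j₀ a0 w c f v - FL Q j₀ a0 w c' f' v := by
  unfold FL
  have hE := KK_cont_left hK (k := 4 * Q + 4) (by omega) v
  have e1 : ∫ u in (0:ℝ)..1, (f u - f' u) * KK (4 * Q + 4) u v =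
      (∫ u in (0:ℝ)..1, f u * KK (4 * Q + 4) u v) - ∫ u in (0:ℝ)..1, f' u * KK (4 * Q + 4) u v :=
    int_sub_mul hf hf' hE _ _
  have e2 : ∑' i : ℕ, BL Q j₀ a0 w (fun n => c n - c' n) (fun u => f u - f' u) (j₀ + i) v =
      (∑' i : ℕ, BL Q j₀ a0 w c f (j₀ + i) v) - ∑' i : ℕ, BL Q j₀ a0 w c' f' (j₀ + i) v := by
    rw [← hs.tsum_sub hs']
    exact tsum_congr fun i => BL_sub hK hw hf hf' _ _
  rw [e1, e2]
  ring

end Pool.Agent.H96R3.BC
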