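import Pool.Agent.H96R3.BC.Stmts

/-! TASK LAG (helper568): interpolation weights on the primes of the cells. -/

set_option autoImplicit false

open Finset Filter

namespace Pool.Agent.H96R3.BC.Lag568

open Pool.Agent.H96R3.BC
open Pool.Agent.H469R10.HO (Hoheisel)

lemma sepL {A p q B s : ℝ} (hA : 0 < A) (hAp : A ≤ p) (hpq : p < q) (hqB : q ≤ B) (hs : 0 < s)
    (hs1 : s ≤ 1) :
    (q - p) * A * (B ^ s - A ^ s) ≤ (q ^ s - p ^ s) * (B - A) * B := by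
  have hp : 0 < p := lt_of_lt_of_le hA hAp
  have hq : 0 < q := hp.trans hpq
  have hB : 0 < B := lt_of_lt_of_le hq hqB
  have hAB : A < B := by linarith
  have hAs : 0 < A ^ s := Real.rpow_pos_of_pos hA s
  have hqs : 0 < q ^ s := Real.rpow_pos_of_pos hq s
  have h4 : A ^ s ≤ q ^ s := Real.rpow_le_rpow hA.le (hAp.trans hpq.le) hs.le
  have h1 : s * (q - p) * A ^ s ≤ (q ^ s - p ^ s) * B := by
    have hpq0 : 0 < p / q := by positivity
    have hb : (1 + (p / q - 1)) ^ s ≤ 1 + s * (p / q - 1) :=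
      _root_.rpow_one_add_le_one_add_mul_self (by linarith) hs.le hs1
    have e0 : 1 + (p / q - 1) = p / q := by ring
    rw [e0, Real.div_rpow hp.le hq.le s, div_le_iff₀ hqs] at hb
    have h3 : s * (q - p) / q * q ^ s ≤ q ^ s - p ^ s := by
      have e1 : s * (q - p) / q * q ^ s = q ^ s - (1 + s * (p / q - 1)) * q ^ s := by
        field_simp
        ring
      rw [e1]; linarith
    have h5 : s * (q - p) ≤ s * (q - p) / q * B := by
      rw [div_mul_eq_mul_div, le_div_iff₀ hq]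
      exact mul_le_mul_of_nonneg_left hqB (by nlinarith)
    have hsp : 0 ≤ s * (q - p) := by nlinarith
    calc s * (q - p) * A ^ s ≤ (s * (q - p) / q * B) * q ^ s := by
          apply mul_le_mul h5 h4 hAs.le
          exact hsp.trans h5
      _ = (s * (q - p) / q * q ^ s) * B := by ring
      _ ≤ (q ^ s - p ^ s) * B := mul_le_mul_of_nonneg_right h3 hB.le
  have h2 : (B ^ s - A ^ s) * A ≤ s * (B - A) * A ^ s := by
    have hBA0 : 0 < B / A := by positivity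
    have hb : (1 + (B / A - 1)) ^ s ≤ 1 + s * (B / A - 1) :=
      _root_.rpow_one_add_le_one_add_mul_self (by linarith) hs.le hs1
    have e0 : 1 + (B / A - 1) = B / A := by ring
    rw [e0, Real.div_rpow hB.le hA.le s, div_le_iff₀ hAs] at hb
    have e1 : (B ^ s - A ^ s) * A ≤ ((1 + s * (B / A - 1)) * A ^ s - A ^ s) * A :=
      mul_le_mul_of_nonneg_right (by linarith) hA.le
    have e2 : ((1 + s * (B / A - 1)) * A ^ s - A ^ s) * A = s * (B - A) * A ^ s := by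
      field_simp
      ring
    rw [e2] at e1; exact e1
  calc (q - p) * A * (B ^ s - A ^ s) = (q - p) * ((B ^ s - A ^ s) * A) := by ring
    _ ≤ (q - p) * (s * (B - A) * A ^ s) := mul_le_mul_of_nonneg_left h2 (by linarith)
    _ = (s * (q - p) * A ^ s) * (B - A) := by ring
    _ ≤ ((q ^ s - p ^ s) * B) * (B - A) := mul_le_mul_of_nonneg_right h1 (by linarith)
    _ = (q ^ s - p ^ s) * (B - A) * B := by ring

lemma UU_eq {Q j₀ : ℕ} (j : ℕ) (hQ : 1 ≤ Q) :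
    UU j₀ j = ((((j ^ (2 * Q) : ℕ) : ℝ)) / (j₀ : ℝ) ^ (2 * Q)) ^ (1 / (4 * (Q : ℝ))) := by
  unfold UU
  have hQ' : (Q : ℝ) ≠ 0 := by positivity
  have hx : 0 ≤ (j : ℝ) / j₀ := by positivity
  rw [Nat.cast_pow, ← div_pow, Real.sqrt_eq_rpow, ← Real.rpow_natCast, ← Real.rpow_mul hx]
  congr 1
  push_cast
  field_simp
  norm_num

/-- `vv` is monotone -/
lemma vv_mono {Q j₀ : ℕ} {p q : ℕ} (h : p ≤ q) : vv Q j₀ p ≤ vv Q j₀ q := by
  unfold vv
  apply Real.rpow_le_rpow (by positivity) _ (by positivity)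
  gcongr

lemma UU_vv {Q j₀ : ℕ} (j : ℕ) (hQ : 1 ≤ Q) : UU j₀ j = vv Q j₀ (j ^ (2 * Q)) := by
  rw [UU_eq j hQ]; rfl

/-- separation of the nodes -/
lemma vv_sep {Q j₀ j p q : ℕ} (hQ : 1 ≤ Q) (hj₀ : 1 ≤ j₀) (hj : 1 ≤ j) (hp : j ^ (2 * Q) ≤ p) (hpq : p < q)
    (hq : q ≤ (j + 1) ^ (2 * Q)) (h2 : (j + 1) ^ (2 * Q) ≤ 2 * j ^ (2 * Q)) :
    ((q : ℝ) - p) * (UU j₀ (j + 1) - UU j₀ j) ≤
      2 * (((j + 1) ^ (2 * Q) : ℕ) - (j ^ (2 * Q) : ℕ) : ℝ) * (vv Q j₀ q - vv Q j₀ p) := by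
  have hD : (0:ℝ) < (j₀ : ℝ) ^ (2 * Q) := by positivity
  set D : ℝ := (j₀ : ℝ) ^ (2 * Q) with hDdef
  have hA0 : 0 < j ^ (2 * Q) := by positivity
  have hA : (0:ℝ) < ((j ^ (2 * Q) : ℕ) : ℝ) / D := by
    apply div_pos _ hD; exact_mod_cast hA0
  have hQ' : (0:ℝ) < Q := by exact_mod_cast hQ
  have key := sepL (A := ((j ^ (2 * Q) : ℕ) : ℝ) / D) (p := (p : ℝ) / D) (q := (q : ℝ) / D)
    (B := (((j + 1) ^ (2 * Q) : ℕ) : ℝ) / D) (s := 1 / (4 * (Q : ℝ))) hA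
    (by gcongr) (by gcongr) (by gcongr) (by positivity)
    (by rw [div_le_one (by positivity)]
        have : (1:ℝ) ≤ Q := by exact_mod_cast hQ
        linarith)
  have e1 : ((((j + 1) ^ (2 * Q) : ℕ) : ℝ) / D) ^ (1 / (4 * (Q : ℝ))) = UU j₀ (j + 1) :=
    (UU_eq (j + 1) hQ).symm
  have e2 : ((((j) ^ (2 * Q) : ℕ) : ℝ) / D) ^ (1 / (4 * (Q : ℝ))) = UU j₀ j :=
    (UU_eq j hQ).symm
  have e3 : ((q : ℝ) / D) ^ (1 / (4 * (Q : ℝ))) = vv Q j₀ q := rfl
  have e4 : ((p : ℝ) / D) ^ (1 / (4 * (Q : ℝ))) = vv Q j₀ p := rfl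
  rw [e1, e2, e3, e4] at key
  set A : ℝ := ((j ^ (2 * Q) : ℕ) : ℝ) with hAdef
  set B : ℝ := (((j + 1) ^ (2 * Q) : ℕ) : ℝ) with hBdef
  have hA0' : 0 < A := by rw [hAdef]; exact_mod_cast hA0
  have hBA : B ≤ 2 * A := by rw [hAdef, hBdef]; exact_mod_cast h2
  have hAB : A ≤ B := by
    rw [hAdef, hBdef]; exact_mod_cast (hp.trans (hpq.le.trans hq))
  have hmono : vv Q j₀ p ≤ vv Q j₀ q := vv_mono hpq.le
  have key2 : ((q : ℝ) - p) * A * (UU j₀ (j + 1) - UU j₀ j) ≤ (vv Q j₀ q - vv Q j₀ p) * (B - A) * B := by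
    have : ((q : ℝ) - p) * A * (UU j₀ (j + 1) - UU j₀ j) = (((q : ℝ) / D - p / D) * (A / D) *
        (UU j₀ (j + 1) - UU j₀ j)) * D ^ 2 := by
      field_simp
    rw [this]
    calc (((q : ℝ) / D - p / D) * (A / D) *
        (UU j₀ (j + 1) - UU j₀ j)) * D ^ 2 ≤ ((vv Q j₀ q - vv Q j₀ p) * (B / D - A / D) * (B / D)) * D ^ 2 :=
          mul_le_mul_of_nonneg_right key (by positivity)
      _ = (vv Q j₀ q - vv Q j₀ p) * (B - A) * B := by field_simp
  have key3 : (vv Q j₀ q - vv Q j₀ p) * (B - A) * B ≤ (vv Q j₀ q - vv Q j₀ p) * (B - A) * (2 * A) :=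
    mul_le_mul_of_nonneg_left hBA (mul_nonneg (by linarith) (by linarith))
  have key4 : (((q : ℝ) - p) * (UU j₀ (j + 1) - UU j₀ j)) * A ≤ (2 * (B - A) * (vv Q j₀ q - vv Q j₀ p)) * A := by
    linarith
  exact le_of_mul_le_mul_right key4 hA0'

/-- growth: `K log X ≤ DD X` for large `X` -/
lemma DD_large (K : ℝ) : ∃ X₁ : ℕ, ∀ X : ℕ, X₁ ≤ X → 1 ≤ Real.log X ∧ K * Real.log X ≤ DD X := by
  have ht : Tendsto (fun X : ℕ => Real.log (X : ℝ)) atTop atTop :=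
    Real.tendsto_log_atTop.comp tendsto_natCast_atTop_atTop
  obtain ⟨X₁, hX₁⟩ := (Filter.eventually_atTop.1 (ht.eventually_ge_atTop (max 1 (158 * K))))
  refine ⟨X₁, fun X hX => ?_⟩
  have h := hX₁ X hX
  have h1 : 1 ≤ Real.log X := (le_max_left _ _).trans h
  have h2 : 158 * K ≤ Real.log X := (le_max_right _ _).trans h
  refine ⟨h1, ?_⟩
  unfold DD
  set L := Real.log (X : ℝ) with hL
  have hL0 : 0 < L := by linarith
  rw [le_div_iff₀ (by positivity)]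
  have h3 := Real.pow_div_factorial_le_exp (2 * Real.sqrt L) (by positivity) 8
  have h4 : (2 * Real.sqrt L) ^ 8 / (Nat.factorial 8 : ℝ) = 256 / 40320 * L ^ 4 := by
    have : (Real.sqrt L) ^ 8 = L ^ 4 := by
      have : (Real.sqrt L) ^ 2 = L := Real.sq_sqrt hL0.le
      calc (Real.sqrt L) ^ 8 = ((Real.sqrt L) ^ 2) ^ 4 := by ring
        _ = L ^ 4 := by rw [this]
    rw [mul_pow, this]
    norm_num [Nat.factorial]
    ring
  rw [h4] at h3
  have h5 : K * L * L ^ 2 ≤ 256 / 40320 * L ^ 4 := by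
    have : K ≤ 256 / 40320 * L := by linarith
    calc K * L * L ^ 2 = K * L ^ 3 := by ring
      _ ≤ (256 / 40320 * L) * L ^ 3 := mul_le_mul_of_nonneg_right this (by positivity)
      _ = _ := by ring
  linarith

/-- conditions on `j` -/
lemma cells (η : ℝ) (hη : 0 < η) (X₀ : ℕ) (Q : ℕ) (hQ : 1 ≤ Q) :
    ∃ J₀ : ℕ, 2 ≤ J₀ ∧ ∀ j : ℕ, J₀ ≤ j → X₀ ≤ j ∧ 
      (j + 1) ^ (2 * Q) ≤ 2 * j ^ (2 * Q) ∧
      8 * (4 * Q + 4) ≤ j ∧ 
      1 ≤ η * (j / (4 * (4 * Q + 4))) / (16 * Q * Real.log j) := by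
  have ht : Tendsto (fun j : ℕ => Real.log (j : ℝ) / (j : ℝ)) atTop (nhds 0) := by
    have h1 : Tendsto (fun x : ℝ => Real.log x / x) atTop (nhds 0) := by
      have := Real.isLittleO_log_id_atTop.tendsto_div_nhds_zero
      simpa using this
    exact h1.comp tendsto_natCast_atTop_atTop
  have hQ' : (0:ℝ) < Q := by exact_mod_cast hQ
  have hc : (0:ℝ) < η / (4 * (4 * Q + 4) * (16 * Q)) := by positivity
  obtain ⟨J₁, hJ₁⟩ := Filter.eventually_atTop.1 (ht.eventually (gt_mem_nhds hc))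
  refine ⟨J₁ + X₀ + 8 * (4 * Q + 4) + 2, by omega, fun j hj => ⟨by omega, ?_, by omega, ?_⟩⟩
  · have hj4 : 4 * Q ≤ j + 1 := by omega
    have hj1 : (0:ℝ) < (j : ℝ) + 1 := by positivity
    have hb := one_add_mul_le_pow (R := ℝ) (a := -1 / ((j : ℝ) + 1)) (by
      have : (1:ℝ) / ((j : ℝ) + 1) ≤ 1 := by rw [div_le_one hj1]; have : (0:ℝ) ≤ j := by positivity
                                             linarith
      have e : -1 / ((j : ℝ) + 1) = - (1 / ((j : ℝ) + 1)) := by ring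
      rw [e]; linarith) (2 * Q)
    have e1 : (1:ℝ) + -1 / ((j : ℝ) + 1) = j / (j + 1) := by field_simp; ring
    rw [e1, div_pow, le_div_iff₀ (by positivity)] at hb
    have h3 : (1:ℝ) / 2 ≤ 1 + ((2 * Q : ℕ) : ℝ) * (-1 / ((j : ℝ) + 1)) := by
      have h4 : ((2 * Q : ℕ) : ℝ) * (1 / ((j : ℝ) + 1)) ≤ 1 / 2 := by
        rw [mul_one_div, div_le_div_iff₀ hj1 (by norm_num)]
        have : ((4 * Q : ℕ) : ℝ) ≤ ((j + 1 : ℕ) : ℝ) := by exact_mod_cast hj4
        push_cast at this ⊢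
        linarith
      have e : -1 / ((j : ℝ) + 1) = - (1 / ((j : ℝ) + 1)) := by ring
      rw [e, mul_neg]; linarith
    have h5 : (1:ℝ) / 2 * ((j : ℝ) + 1) ^ (2 * Q) ≤ (j : ℝ) ^ (2 * Q) :=
      (mul_le_mul_of_nonneg_right h3 (by positivity)).trans hb
    have h6 : ((j : ℝ) + 1) ^ (2 * Q) ≤ 2 * (j : ℝ) ^ (2 * Q) := by linarith
    exact_mod_cast h6
  · have h := hJ₁ j (by omega)
    have hj2 : (2:ℝ) ≤ j := by
      have : 2 ≤ j := by omega
      exact_mod_cast this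
    have hlog : 0 < Real.log j := Real.log_pos (by linarith)
    rw [le_div_iff₀ (by positivity)]
    have hj0 : (0:ℝ) < j := by linarith
    rw [div_lt_iff₀ hj0] at h
    have : 1 * (16 * Q * Real.log j) ≤ 16 * Q * (η / (4 * (4 * Q + 4) * (16 * Q)) * j) := by
      rw [one_mul]; exact mul_le_mul_of_nonneg_left h.le (by positivity)
    refine this.trans (le_of_eq ?_)
    field_simp


lemma X_mono {C₁ : ℝ} {X : ℕ → ℕ} {P0 : ℕ → Finset ℕ} {a0 : ℕ → ℝ} (B : Base C₁ X P0 a0) : Monotone X := by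
  apply monotone_nat_of_le_succ
  intro i
  have h1 := B.tower i
  have h2 : ((X i : ℝ) ^ 2) + 1 ≤ Real.exp ((X i : ℝ) ^ 2) := Real.add_one_le_exp _
  have h3 : Real.exp ((X i : ℝ) ^ 2) + 1 ≤ Real.exp (Real.exp ((X i : ℝ) ^ 2)) := Real.add_one_le_exp _
  have h4 : (X i : ℝ) ≤ X (i + 1) := by nlinarith [sq_nonneg ((X i : ℝ) - 1)]
  exact_mod_cast h4

lemma window_aux {C₁ : ℝ} {X : ℕ → ℕ} {P0 : ℕ → Finset ℕ} {a0 : ℕ → ℝ} (B : Base C₁ X P0 a0) (hX0 : 4 ≤ X 0)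
    {i l p q n : ℕ} (hp : p ∈ P0 i) (hq : q ∈ P0 l) (hnp : n < p) (hqn : q ≤ 2 * n) : ¬ i < l := by
  intro hil
  have h1 := B.tower i
  have h2 : ((X i : ℝ) ^ 2) + 1 ≤ Real.exp ((X i : ℝ) ^ 2) := Real.add_one_le_exp _
  have h3 : Real.exp ((X i : ℝ) ^ 2) + 1 ≤ Real.exp (Real.exp ((X i : ℝ) ^ 2)) := Real.add_one_le_exp _
  have h4 : X (i + 1) ≤ X l := X_mono B hil
  have h5 := (B.mem i p hp).2.2
  have h6 := (B.mem l q hq).2.1
  have h7 : 4 ≤ X i := hX0.trans (X_mono B (Nat.zero_le i))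
  have h8 : X l < 4 * X i := by omega
  have h9 : ((X l : ℕ) : ℝ) < 4 * X i := by exact_mod_cast h8
  have h10 : (X (i + 1) : ℝ) ≤ X l := by exact_mod_cast h4
  have h11 : (4:ℝ) ≤ X i := by exact_mod_cast h7
  nlinarith

lemma window_unique {C₁ : ℝ} {X : ℕ → ℕ} {P0 : ℕ → Finset ℕ} {a0 : ℕ → ℝ} (B : Base C₁ X P0 a0)
    (hX0 : 4 ≤ X 0) {i l p q n : ℕ} (hp : p ∈ P0 i) (hq : q ∈ P0 l) (hnp : n < p) (hpn : p ≤ 2 * n)
    (hnq : n < q) (hqn : q ≤ 2 * n) : i = l := by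
  rcases lt_trichotomy i l with h | h | h
  · exact absurd h (window_aux B hX0 hp hq hnp hqn)
  · exact h
  · exact absurd h (window_aux B hX0 hq hp hnq hpn)

lemma base_count {C₁ : ℝ} {X : ℕ → ℕ} {P0 : ℕ → Finset ℕ} {a0 : ℕ → ℝ} (B : Base C₁ X P0 a0) (hX0 : 4 ≤ X 0)
    {Q j a Y : ℕ} {K1 : ℝ} (hK1 : 0 < K1) (hQ : 1 ≤ Q) (hj : 2 ≤ j)
    (h2 : (j + 1) ^ (2 * Q) ≤ 2 * j ^ (2 * Q))
    (hDD : ∀ x : ℕ, j ≤ x → 1 ≤ Real.log x ∧ K1 * Real.log x ≤ DD x) (ha : j ^ (2 * Q) ≤ a)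
    (haY : a + Y ≤ (j + 1) ^ (2 * Q)) :
    (((Ioc a (a + Y)).filter (fun p => a0 p ≠ 0)).card : ℝ) ≤ Y / (K1 * Real.log j) + 1 := by
  have hj' : (2:ℝ) ≤ j := by exact_mod_cast hj
  have hlog : 0 < Real.log j := Real.log_pos (by linarith)
  rcases Finset.eq_empty_or_nonempty ((Ioc a (a + Y)).filter (fun p => a0 p ≠ 0)) with h | h
  · rw [h]; simp only [card_empty, Nat.cast_zero]; positivity
  · obtain ⟨p, hp⟩ := h
    rw [mem_filter, mem_Ioc] at hp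
    have hex : ∀ q, a0 q ≠ 0 → ∃ i, q ∈ P0 i := by
      intro q hq
      by_contra hcon
      push Not at hcon
      exact hq (B.off q hcon)
    obtain ⟨i, hi⟩ := hex p hp.2
    have hsub : (Ioc a (a + Y)).filter (fun p => a0 p ≠ 0) ⊆ (Ioc a (a + Y)).filter (fun p => p ∈ P0 i) := by
      intro q hq
      rw [mem_filter, mem_Ioc] at hq
      obtain ⟨l, hl⟩ := hex q hq.2
      have : i = l := window_unique B hX0 (n := j ^ (2 * Q)) hi hl (by omega) (by omega) (by omega) (by omega)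
      rw [mem_filter, mem_Ioc, this]
      exact ⟨hq.1, hl⟩
    have h3 : (((Ioc a (a + Y)).filter (fun p => a0 p ≠ 0)).card : ℝ) ≤
        (((Ioc a (a + Y)).filter (fun p => p ∈ P0 i)).card : ℝ) := by exact_mod_cast card_le_card hsub
    have h4 := B.sparse i a Y
    have hjX : j ≤ X i := by
      have h5 := (B.mem i p hi).2.2
      have h6 : 2 * j ≤ j ^ (2 * Q) := by
        calc 2 * j ≤ j * j := Nat.mul_le_mul_right j hj
          _ = j ^ 2 := by ring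
          _ ≤ j ^ (2 * Q) := Nat.pow_le_pow_right (by omega) (by omega)
      omega
    obtain ⟨h7, h8⟩ := hDD (X i) hjX
    have h9 : Real.log j ≤ Real.log (X i) := Real.log_le_log (by linarith) (by exact_mod_cast hjX)
    have h10 : K1 * Real.log j ≤ DD (X i) := (mul_le_mul_of_nonneg_left h9 hK1.le).trans h8
    have h11 : (Y : ℝ) / DD (X i) ≤ Y / (K1 * Real.log j) := by
      apply div_le_div_of_nonneg_left (by positivity) (by positivity) h10
    linarith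

/-- the groups of primes in a cell -/
lemma groups {δ η : ℝ} (hδ : 0 < δ) (hδ1 : δ < 1) (hη : 0 < η) {X₀ : ℕ} 
    (hH : ∀ X Y : ℕ, X₀ ≤ X → (X : ℝ) ^ (1 - δ) ≤ Y → Y ≤ X →
      η * Y / Real.log X ≤ (((Ioc X (X + Y)).filter Nat.Prime).card : ℝ))
    {Q : ℕ} (hQ : 1 ≤ Q) (hQδ : 1 ≤ Q * δ)
    {C₁ : ℝ} {X : ℕ → ℕ} {P0 : ℕ → Finset ℕ} {a0 : ℕ → ℝ} (B : Base C₁ X P0 a0) (hX0 : 4 ≤ X 0)
    {j : ℕ} (hj : 2 ≤ j) (hjX : X₀ ≤ j) 
    (h2 : (j + 1) ^ (2 * Q) ≤ 2 * j ^ (2 * Q)) (h3 : 8 * (4 * Q + 4) ≤ j)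
    (h4 : 1 ≤ η * (j / (4 * (4 * Q + 4))) / (16 * Q * Real.log j))
    (hDD : ∀ x : ℕ, j ≤ x → 1 ≤ Real.log x ∧ (16 * Q / η) * Real.log x ≤ DD x) :
    ∃ (Y : ℕ) (G : Fin (4 * Q + 4) → Finset ℕ), 1 ≤ Y ∧ (CC Q j).card ≤ 4 * (4 * Q + 4) * Y ∧
      (∀ i, G i ⊆ CC Q j) ∧ (∀ i, ∀ p ∈ G i, p.Prime ∧ a0 p = 0) ∧
      (∀ i l, i < l → ∀ p ∈ G i, ∀ q ∈ G l, p + Y ≤ q) ∧
      (∀ i, η * Y / (8 * Q * Real.log j) ≤ (G i).card) := by
  have hj' : (2:ℝ) ≤ j := by exact_mod_cast hj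
  have hj0 : (0:ℝ) < j := by linarith
  have hlog : 0 < Real.log j := Real.log_pos (by linarith)
  have hQ' : (0:ℝ) < Q := by exact_mod_cast hQ
  obtain ⟨N, hN⟩ : ∃ N, N = (j + 1) ^ (2 * Q) - j ^ (2 * Q) := ⟨_, rfl⟩
  have hle : j ^ (2 * Q) ≤ (j + 1) ^ (2 * Q) := Nat.pow_le_pow_left (by omega) _
  have hNcard : (CC Q j).card = N := by unfold CC; rw [Nat.card_Ioc, hN]
  have hNj : j ^ (2 * Q - 1) ≤ N := by
    have e1 : 2 * Q = (2 * Q - 1) + 1 := by omega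
    have e2 : (j + 1) ^ (2 * Q) = (j + 1) ^ (2 * Q - 1) * (j + 1) := by
      conv_lhs => rw [e1]
      rw [pow_succ]
    have e3 : j ^ (2 * Q) = j ^ (2 * Q - 1) * j := by
      conv_lhs => rw [e1]
      rw [pow_succ]
    have e4 : j ^ (2 * Q - 1) * (j + 1) ≤ (j + 1) ^ (2 * Q - 1) * (j + 1) :=
      Nat.mul_le_mul_right _ (Nat.pow_le_pow_left (by omega) _)
    have e5 : j ^ (2 * Q - 1) * (j + 1) = j ^ (2 * Q - 1) * j + j ^ (2 * Q - 1) := by ring
    omega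
  have hjN : j ≤ N := by
    refine le_trans ?_ hNj
    calc j = j ^ 1 := (pow_one j).symm
      _ ≤ j ^ (2 * Q - 1) := Nat.pow_le_pow_right (by omega) (by omega)
  obtain ⟨m, hm⟩ : ∃ m, m = 4 * Q + 4 := ⟨_, rfl⟩
  rw [← hm] at h3
  obtain ⟨Y, hY⟩ : ∃ Y, Y = N / (2 * m) := ⟨_, rfl⟩
  have hm0 : 0 < m := by omega
  have hY1 : 2 * m * Y ≤ N := by rw [hY]; exact Nat.mul_div_le N (2 * m)
  have hY2 : N < 2 * m * (Y + 1) := by rw [hY]; exact Nat.lt_mul_div_succ N (by omega)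
  have hYpos : 1 ≤ Y := by
    rw [hY, Nat.one_le_div_iff (by omega)]; omega
  have hY3 : N ≤ 4 * m * Y := by nlinarith
  have hm' : (m : ℝ) = 4 * Q + 4 := by rw [hm]; push_cast; ring
  have hmpos : (0:ℝ) < m := by exact_mod_cast hm0
  have hY3' : (N : ℝ) ≤ 4 * m * Y := by exact_mod_cast hY3
  have hY4 : (j : ℝ) ^ (2 * Q - 1) / (4 * m) ≤ Y := by
    rw [div_le_iff₀ (by positivity)]
    have : ((j : ℝ) ^ (2 * Q - 1)) ≤ N := by exact_mod_cast hNj
    linarith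
  have hY5 : (j : ℝ) / (4 * m) ≤ Y := by
    rw [div_le_iff₀ (by positivity)]
    have : (j : ℝ) ≤ N := by exact_mod_cast hjN
    linarith
  have hYpos' : (0:ℝ) < Y := by exact_mod_cast hYpos
  refine ⟨Y, fun i => (Ioc (j ^ (2 * Q) + 2 * i * Y) (j ^ (2 * Q) + 2 * i * Y + Y)).filter
    (fun p => p.Prime ∧ a0 p = 0), hYpos, ?_, ?_, ?_, ?_, ?_⟩
  · rw [hNcard, ← hm]; exact hY3
  · intro i p hp
    rw [mem_filter, mem_Ioc] at hp
    unfold CC
    rw [mem_Ioc]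
    have hi : (i : ℕ) + 1 ≤ m := by rw [hm]; exact i.2
    have : 2 * (i : ℕ) * Y + Y ≤ N := by nlinarith
    constructor
    · omega
    · omega
  · intro i p hp
    rw [mem_filter] at hp
    exact hp.2
  · intro i l hil p hp q hq
    rw [mem_filter, mem_Ioc] at hp hq
    have h5 : (i : ℕ) + 1 ≤ l := hil
    have : 2 * (i : ℕ) * Y + 2 * Y ≤ 2 * (l : ℕ) * Y := by nlinarith
    omega
  · intro i
    have hi : (i : ℕ) + 1 ≤ m := by rw [hm]; exact i.2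
    have hiN : 2 * (i : ℕ) * Y + Y ≤ N := by nlinarith
    obtain ⟨a, ha⟩ : ∃ a, a = j ^ (2 * Q) + 2 * (i : ℕ) * Y := ⟨_, rfl⟩
    simp only [← ha]
    have ha1 : j ^ (2 * Q) ≤ a := by omega
    have ha2 : a + Y ≤ (j + 1) ^ (2 * Q) := by omega
    have hjpow : j ≤ j ^ (2 * Q) := Nat.le_self_pow (by omega) j
    have haj : j ≤ a := hjpow.trans ha1
    have hlog_a : Real.log a ≤ 4 * Q * Real.log j := by
      have h5 : a ≤ j ^ (4 * Q) := by
        calc a ≤ 2 * j ^ (2 * Q) := by omega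
          _ ≤ j * j ^ (2 * Q) := Nat.mul_le_mul_right _ hj
          _ = j ^ (2 * Q + 1) := by rw [pow_succ]; ring
          _ ≤ j ^ (4 * Q) := Nat.pow_le_pow_right (by omega) (by omega)
      have h6 : Real.log a ≤ Real.log ((j : ℝ) ^ (4 * Q)) := by
        apply Real.log_le_log
        · have : 0 < a := by omega
          exact_mod_cast this
        · exact_mod_cast h5
      rw [Real.log_pow] at h6
      push_cast at h6
      linarith
    have hlog_a0 : 0 < Real.log a := by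
      apply Real.log_pos
      have : 1 < a := by omega
      exact_mod_cast this
    have hprimes := hH a Y (hjX.trans haj) (by
      have h5 : (a : ℝ) ≤ 2 * (j : ℝ) ^ (2 * Q) := by
        have : a ≤ 2 * j ^ (2 * Q) := by omega
        exact_mod_cast this
      have h6 : (a : ℝ) ^ (1 - δ) ≤ (2 * (j : ℝ) ^ (2 * Q)) ^ (1 - δ) :=
        Real.rpow_le_rpow (by positivity) h5 (by linarith)
      rw [Real.mul_rpow (by norm_num) (by positivity)] at h6
      have h7 : (2:ℝ) ^ (1 - δ) ≤ 2 := by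
        calc (2:ℝ) ^ (1 - δ) ≤ (2:ℝ) ^ (1:ℝ) := Real.rpow_le_rpow_of_exponent_le (by norm_num) (by linarith)
          _ = 2 := Real.rpow_one 2
      have h8 : ((j : ℝ) ^ (2 * Q)) ^ (1 - δ) ≤ (j : ℝ) ^ (2 * Q - 2) := by
        rw [← Real.rpow_natCast, ← Real.rpow_mul hj0.le, ← Real.rpow_natCast]
        apply Real.rpow_le_rpow_of_exponent_le (by linarith)
        rw [Nat.cast_sub (by omega)]
        push_cast
        nlinarith
      have h9 : (j : ℝ) ^ (2 * Q - 1) = (j : ℝ) ^ (2 * Q - 2) * j := by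
        have : 2 * Q - 1 = (2 * Q - 2) + 1 := by omega
        rw [this, pow_succ]
      have h10 : (8 * m : ℝ) ≤ j := by exact_mod_cast h3
      calc (a : ℝ) ^ (1 - δ) ≤ (2:ℝ) ^ (1 - δ) * ((j : ℝ) ^ (2 * Q)) ^ (1 - δ) := h6
        _ ≤ 2 * (j : ℝ) ^ (2 * Q - 2) := mul_le_mul h7 h8 (by positivity) (by norm_num)
        _ ≤ (j : ℝ) ^ (2 * Q - 1) / (4 * m) := by
            rw [h9, le_div_iff₀ (by positivity)]
            have : 0 < (j : ℝ) ^ (2 * Q - 2) := by positivity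
            nlinarith
        _ ≤ Y := hY4) (by omega)
    have hbase := base_count B hX0 (a := a) (Y := Y) (K1 := 16 * Q / η) (by positivity) hQ hj h2 hDD ha1 ha2
    have hsplit : (((Ioc a (a + Y)).filter Nat.Prime).card : ℝ) ≤
        (((Ioc a (a + Y)).filter (fun p => p.Prime ∧ a0 p = 0)).card : ℝ) +
        (((Ioc a (a + Y)).filter (fun p => a0 p ≠ 0)).card : ℝ) := by
      have : ((Ioc a (a + Y)).filter Nat.Prime) ⊆ ((Ioc a (a + Y)).filter (fun p => p.Prime ∧ a0 p = 0)) ∪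
          ((Ioc a (a + Y)).filter (fun p => a0 p ≠ 0)) := by
        intro p hp
        rw [mem_filter] at hp
        rw [mem_union, mem_filter, mem_filter]
        by_cases h : a0 p = 0
        · exact Or.inl ⟨hp.1, hp.2, h⟩
        · exact Or.inr ⟨hp.1, h⟩
      exact_mod_cast (card_le_card this).trans (card_union_le _ _)
    have h5 : η * Y / (4 * Q * Real.log j) ≤ η * Y / Real.log a := by
      apply div_le_div_of_nonneg_left (by positivity) hlog_a0 hlog_a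
    have h6 : (Y : ℝ) / (16 * Q / η * Real.log j) = η * Y / (16 * Q * Real.log j) := by
      field_simp
    have h7 : 1 ≤ η * Y / (16 * Q * Real.log j) := by
      refine h4.trans ?_
      rw [hm'] at hY5
      gcongr
    have h8 : η * Y / (4 * Q * Real.log j) = η * Y / (8 * Q * Real.log j) + 2 * (η * Y / (16 * Q * Real.log j)) := by
      field_simp
      ring
    rw [h6] at hbase
    linarith


lemma cell_unique {Q j l p : ℕ} (hj : p ∈ CC Q j) (hl : p ∈ CC Q l) : j = l := by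
  unfold CC at hj hl
  rw [mem_Ioc] at hj hl
  by_contra hne
  rcases Nat.lt_or_gt_of_ne hne with h | h
  · have : (j + 1) ^ (2 * Q) ≤ l ^ (2 * Q) := Nat.pow_le_pow_left h _
    omega
  · have : (l + 1) ^ (2 * Q) ≤ j ^ (2 * Q) := Nat.pow_le_pow_left h _
    omega

lemma UU_lt {j₀ j : ℕ} (hj₀ : 1 ≤ j₀) : UU j₀ j < UU j₀ (j + 1) := by
  unfold UU
  have : (0:ℝ) < j₀ := by exact_mod_cast hj₀
  apply Real.sqrt_lt_sqrt (by positivity)
  rw [div_lt_div_iff_of_pos_right this]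
  push_cast; linarith

/-- TASK LAG. -/
theorem taskLag : TaskLag := by
  intro hLA hHo
  obtain ⟨δ, η, hδ, hδ1, hη, X₀, hX₀, hH⟩ := hHo
  obtain ⟨Q₀, hQ₀⟩ := exists_nat_ge (1 / δ)
  refine ⟨Q₀ + 1, fun Q hQQ => ?_⟩
  have hQ : 1 ≤ Q := by omega
  have hQ' : (0:ℝ) < Q := by exact_mod_cast hQ
  have hQδ : 1 ≤ Q * δ := by
    have h1 : (Q₀ : ℝ) ≤ Q := by exact_mod_cast (by omega : Q₀ ≤ Q)
    have h2 : 1 / δ ≤ Q := hQ₀.trans h1
    rwa [div_le_iff₀ hδ] at h2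
  obtain ⟨m, hm⟩ : ∃ m, m = 4 * Q + 4 := ⟨_, rfl⟩
  have hmpos : (0:ℝ) < m := by
    have : 0 < m := by omega
    exact_mod_cast this
  obtain ⟨K, hK⟩ : ∃ K : ℝ, K = 8 * m := ⟨_, rfl⟩
  have hK1 : 1 ≤ K := by
    have : 1 ≤ m := by omega
    have : (1:ℝ) ≤ m := by exact_mod_cast this
    rw [hK]; linarith
  have hKm : 0 < K ^ (m - 1) := by positivity
  obtain ⟨C, hC⟩ : ∃ C : ℝ, C = m * K ^ (m - 1) + K ^ (m - 1) * (32 * m * Q / η) := ⟨_, rfl⟩
  have hC0 : 0 < C := by rw [hC]; positivity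
  have hC1 : m * K ^ (m - 1) ≤ C := by
    have : 0 < K ^ (m - 1) * (32 * m * Q / η) := by positivity
    linarith
  have hC2 : K ^ (m - 1) * (32 * m * Q / η) ≤ C := by
    have : 0 < m * K ^ (m - 1) := by positivity
    linarith
  refine ⟨C, hC0, ?_⟩
  obtain ⟨J₁, hJ₁2, hJ₁⟩ := cells η hη X₀ Q hQ
  obtain ⟨J₂, hJ₂⟩ := DD_large (16 * Q / η)
  refine ⟨J₁ + J₂ + 4, fun j₀ hj₀ C₁ X P0 a0 B hX0' => ?_⟩
  have hj₀1 : 1 ≤ j₀ := by omega
  have hX0 : 4 ≤ X 0 := by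
    have : j₀ ≤ j₀ ^ (2 * Q) := Nat.le_self_pow (by omega) j₀
    omega
  have hW : ∀ j : ℕ, j₀ ≤ j → ∃ W : ℕ → ℝ → ℝ, (∀ p, Continuous (W p)) ∧
      (∀ p u, W p u ≠ 0 → p.Prime ∧ a0 p = 0) ∧
      (∀ p u, UU j₀ j ≤ u → u ≤ UU j₀ (j + 1) → |W p u| ≤ C * Real.log j / (CC Q j).card) ∧
      (∀ u, UU j₀ j ≤ u → u ≤ UU j₀ (j + 1) → ∑ p ∈ CC Q j, |W p u| ≤ C) ∧
      (∀ u, ∀ P : Polynomial ℝ, P.natDegree < 4 * Q + 4 →
        ∑ p ∈ CC Q j, W p u * P.eval (vv Q j₀ p) = P.eval u) := by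
    intro j hj
    obtain ⟨h1, h2, h3, h4⟩ := hJ₁ j (by omega)
    have hj2 : 2 ≤ j := by omega
    have hj' : (2:ℝ) ≤ j := by exact_mod_cast hj2
    have hlog : 0 < Real.log j := Real.log_pos (by linarith)
    obtain ⟨Y, G, hY1, hYN, hGsub, hGp, hGsep, hGcard⟩ := groups hδ hδ1 hη hH hQ hQδ B hX0 hj2 h1 h2 h3 h4
      (fun x hx => hJ₂ x (by omega))
    have hY0 : (0:ℝ) < Y := by exact_mod_cast hY1
    have hGpos : ∀ i, 0 < ((G i).card : ℝ) := fun i => lt_of_lt_of_le (by positivity) (hGcard i)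
    have hNpos : 0 < ((CC Q j).card : ℝ) := by
      have h5 : (0:ℝ) < (G ⟨0, by omega⟩).card := hGpos _
      have h6 : ((G ⟨0, by omega⟩).card : ℝ) ≤ ((CC Q j).card : ℝ) := by
        exact_mod_cast card_le_card (hGsub _)
      linarith
    have hYN' : ((CC Q j).card : ℝ) ≤ 4 * m * Y := by rw [hm]; exact_mod_cast hYN
    have hcells : ∀ p, p ∈ CC Q j → j ^ (2 * Q) < p ∧ p ≤ (j + 1) ^ (2 * Q) := by
      intro p hp; unfold CC at hp; rwa [mem_Ioc] at hp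
    have hcardN : ((CC Q j).card : ℝ) = ((((j + 1) ^ (2 * Q) : ℕ) : ℝ) - ((j ^ (2 * Q) : ℕ) : ℝ)) := by
      unfold CC
      rw [Nat.card_Ioc, Nat.cast_sub (Nat.pow_le_pow_left (by omega) _)]
    have hsep1 : ∀ i l, i < l → ∀ p ∈ G i, ∀ q ∈ G l,
        (UU j₀ (j + 1) - UU j₀ j) / K ≤ vv Q j₀ q - vv Q j₀ p := by
      intro i l hil p hp q hq
      have h5 := hGsep i l hil p hp q hq
      have h6 := hcells p (hGsub i hp)
      have h7 := hcells q (hGsub l hq)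
      have h8 := vv_sep (Q := Q) (j₀ := j₀) (j := j) (p := p) (q := q) hQ hj₀1 (by omega) h6.1.le (by omega) h7.2 h2
      rw [← hcardN] at h8
      have h9 : (Y : ℝ) ≤ (q : ℝ) - p := by
        have : ((p + Y : ℕ) : ℝ) ≤ q := by exact_mod_cast h5
        push_cast at this; linarith
      have h10 : 0 < UU j₀ (j + 1) - UU j₀ j := by have := UU_lt (j := j) hj₀1; linarith
      have h11 : 0 ≤ vv Q j₀ q - vv Q j₀ p := by
        have := vv_mono (Q := Q) (j₀ := j₀) (p := p) (q := q) (by omega); linarith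
      rw [div_le_iff₀ (by linarith), hK]
      have h12 : (Y : ℝ) * (UU j₀ (j + 1) - UU j₀ j) ≤ (Y : ℝ) * ((vv Q j₀ q - vv Q j₀ p) * (8 * m)) := by
        calc (Y : ℝ) * (UU j₀ (j + 1) - UU j₀ j) ≤ ((q : ℝ) - p) * (UU j₀ (j + 1) - UU j₀ j) :=
              mul_le_mul_of_nonneg_right h9 h10.le
          _ ≤ 2 * (CC Q j).card * (vv Q j₀ q - vv Q j₀ p) := h8
          _ ≤ 2 * (4 * m * Y) * (vv Q j₀ q - vv Q j₀ p) := by gcongr
          _ = (Y : ℝ) * ((vv Q j₀ q - vv Q j₀ p) * (8 * m)) := by ring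
      exact le_of_mul_le_mul_left h12 hY0
    obtain ⟨W, hW1, hW2, hW3, hW4⟩ := hLA (4 * Q + 4) (UU j₀ j) (UU j₀ (j + 1)) K (by omega) (UU_lt hj₀1) hK1 G
      (vv Q j₀) (fun i => by
        rw [← Finset.card_pos]; exact_mod_cast hGpos i)
      (fun i p hp => by
        have h6 := hcells p (hGsub i hp)
        rw [UU_vv j hQ, UU_vv (j + 1) hQ]
        exact ⟨vv_mono h6.1.le, vv_mono h6.2⟩)
      (fun i l hil p hp q hq => by
        rcases lt_or_gt_of_ne hil with h | h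
        · have h5 := hsep1 i l h p hp q hq
          rw [abs_sub_comm]
          exact h5.trans (le_abs_self _)
        · have h5 := hsep1 l i h q hq p hp
          exact h5.trans (le_abs_self _))
    have hmK : K ^ (4 * Q + 4 - 1) = K ^ (m - 1) := by rw [hm]
    have hmc : ((4 * Q + 4 : ℕ) : ℝ) = (m : ℝ) := by rw [hm]
    simp only [hmK] at hW3 hW4
    refine ⟨W, hW1, ?_, ?_, ?_, ?_⟩
    · intro p u hne
      by_contra hcon
      apply hne
      apply hW2 p _ u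
      intro i hpi
      exact hcon (hGp i p hpi)
    · intro p u hu1 hu2
      by_cases hex : ∃ i, p ∈ G i
      · obtain ⟨i, hi⟩ := hex
        refine (hW3 i p hi u hu1 hu2).trans ?_
        rw [div_le_div_iff₀ (hGpos i) hNpos]
        have h5 := hGcard i
        have h6 : K ^ (m - 1) * ((CC Q j).card : ℝ) ≤ K ^ (m - 1) * (4 * m * Y) :=
          mul_le_mul_of_nonneg_left hYN' hKm.le
        have h7 : K ^ (m - 1) * (4 * m * Y) = K ^ (m - 1) * (32 * m * Q / η) * Real.log j *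
            (η * Y / (8 * Q * Real.log j)) := by
          field_simp
          ring
        rw [h7] at h6
        refine h6.trans ?_
        apply mul_le_mul _ h5 (by positivity) (by positivity)
        exact mul_le_mul_of_nonneg_right hC2 hlog.le
      · push Not at hex
        rw [hW2 p hex u, abs_zero]
        positivity
    · intro u hu1 hu2
      have h5 := (hW4 (CC Q j) hGsub).1 u hu1 hu2
      rw [hmc] at h5
      exact h5.trans hC1
    · intro u P hP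
      exact (hW4 (CC Q j) hGsub).2 P hP u
  choose! W hW1 hW2 hW3 hW4 hW5 using hW
  classical
  let w : ℕ → ℝ → ℝ := fun p => if h : ∃ j, j₀ ≤ j ∧ p ∈ CC Q j then W h.choose p else fun _ => 0
  have hw : ∀ j, j₀ ≤ j → ∀ p ∈ CC Q j, w p = W j p := by
    intro j hj p hp
    have h : ∃ j, j₀ ≤ j ∧ p ∈ CC Q j := ⟨j, hj, hp⟩
    have e : h.choose = j := cell_unique h.choose_spec.2 hp
    simp only [w, dif_pos h, e]
  refine ⟨w, ?_, ?_, ?_, ?_, ?_⟩
  · intro p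
    by_cases h : ∃ j, j₀ ≤ j ∧ p ∈ CC Q j
    · obtain ⟨j, hj, hp⟩ := h
      rw [hw j hj p hp]; exact hW1 j hj p
    · simp only [w, dif_neg h]; exact continuous_const
  · intro p u hne
    by_cases h : ∃ j, j₀ ≤ j ∧ p ∈ CC Q j
    · obtain ⟨j, hj, hp⟩ := h
      rw [hw j hj p hp] at hne
      have h1 := hW2 j hj p u hne
      refine ⟨h1.1, h1.2, ?_⟩
      unfold CC at hp
      rw [mem_Ioc] at hp
      exact lt_of_le_of_lt (Nat.pow_le_pow_left hj _) hp.1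
    · simp only [w, dif_neg h] at hne
      exact absurd rfl hne
  · intro j hj p hp u hu1 hu2
    rw [hw j hj p hp]; exact hW3 j hj p u hu1 hu2
  · intro j hj u hu1 hu2
    rw [sum_congr rfl (fun p hp => by rw [hw j hj p hp])]
    exact hW4 j hj u hu1 hu2
  · intro j hj u hu1 hu2 P hP
    rw [sum_congr rfl (fun p hp => by rw [hw j hj p hp])]
    exact hW5 j hj u P hP

end Pool.Agent.H96R3.BC.Lag568
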