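import Mathlib
import Pool.Agent.H96R3.BC.Fix3
import Pool.Agent.H589R3.BCKer1
import Pool.Agent.H553R3.BCKer2
import Pool.Agent.H195R3.BCLagA
import Pool.Agent.H318R3.BCBase
import Pool.Agent.H312F.BC.TaskG1
import Pool.Agent.H828R3.BCSmo
import Pool.Agent.H124R3.BCDef
import Pool.Agent.H782R3.BC.Sum
import Pool.Agent.H335R3.BCGrow
import Pool.Agent.H135R3.BCSec
import Pool.Agent.H878.BCSel
import Pool.Agent.H993R3.BC.Theta
import Pool.Agent.H469R10.HO.Final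
import Pool.Agent.H336R4.BC.FixB
import Pool.Agent.H96R3.BC.Lag_helper568
import Pool.Agent.H811R3.BCNS
import Pool.Agent.H929R3.BCSM

/-! # PROJECT BIGCOEF: assembly -/

set_option autoImplicit false

open Finset

namespace Pool.Agent.H96R3.BC

theorem elt2_of (hFixB : TaskFixB) (hLag : TaskLag) (hNS : TaskNS) (hSm : TaskSm) : Elt2 := by
  have hHo := Pool.Agent.H469R10.HO.hoheisel
  have hK1 : TaskKer1 := Pool.Agent.H589R3.BC.taskKer1
  have hK2 : TaskKer2 := Pool.Agent.H553R3.BC.taskKer2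
  obtain ⟨Q, hQ, J₀, hfix⟩ := fixA hFixB hK1 hK2 Pool.Agent.H124R3.BC.taskDef Pool.Agent.H782R3.BCSum.taskSum
    Pool.Agent.H195R3.BC.lagA hLag Pool.Agent.H312F.BC.taskG1 Pool.Agent.H828R3.BC.taskSmo hNS hSm hHo
  obtain ⟨C₁, hC₁, hbase⟩ := Pool.Agent.H318R3.BCBase.taskBase hHo
  obtain ⟨X, P0, a0, hX, hB⟩ := hbase (max ((max J₀ 2) ^ (2 * Q)) ⌈Real.exp 16⌉₊)
  have hX1 : (max J₀ 2) ^ (2 * Q) ≤ X 0 := (le_max_left _ _).trans hX
  have hX2 : Real.exp 16 ≤ X 0 := Nat.ceil_le.mp ((le_max_right _ _).trans hX)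
  obtain ⟨y, f, hS⟩ := hfix (max J₀ 2) (le_max_left _ _) C₁ X P0 a0 hB hX1
  obtain ⟨hg1, hg2⟩ := Pool.Agent.H335R3.BCGrow.taskGrow C₁ X P0 a0 hB hX2 y hS.small hS.big
  have hlin : ∃ C : ℝ, ∀ n : ℕ, 1 ≤ n → |cf y n| ≤ C * n := by
    obtain ⟨C, hC⟩ := hg1 1 one_pos
    refine ⟨C, fun n hn => ?_⟩
    have := hC n hn
    rwa [Real.rpow_one] at this
  have hth := Pool.Agent.H993R3.BC.taskTheta hK1 hK2 Q (max J₀ 2) a0 y f (by omega) (le_max_right _ _) hS hlin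
  have hsel := Pool.Agent.H878.BCSel.taskSel Pool.Agent.H144R3.T469F.taskF Q (max J₀ 2) y (by omega) (le_max_right _ _) hg1 hg2 hth
  refine ⟨fun n => (cf y n : ℂ), hsel, ?_, ?_⟩
  · have hne : (P0 0).Nonempty := by
      by_contra h
      rw [not_nonempty_iff_eq_empty] at h
      have h1 := hB.many 0
      rw [h] at h1
      simp at h1
      have h2 := Real.exp_pos 16
      have h3 : (X 0 : ℝ) = 0 := by exact_mod_cast h1
      linarith
    obtain ⟨p, hp⟩ := hne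
    have h1 := (hB.mem 0 p hp).1
    have h2 : a0 p ≠ 0 := by rw [hB.val 0 p hp]; exact (AA_pos _).ne'
    refine ⟨p, h1.two_le, ?_⟩
    simp only []
    rw [cf_prime y h1, hS.big p h2]
    exact_mod_cast h2
  · intro K
    obtain ⟨N, hN, h⟩ := Pool.Agent.H135R3.BCSec.taskSec C₁ X P0 a0 hC₁ hB y hS.big K
    refine ⟨N, hN, lt_of_lt_of_le h (le_of_eq ?_)⟩
    apply sum_congr rfl
    intro p hp
    rw [mem_filter] at hp
    simp only []
    rw [cf_prime y hp.2, Complex.norm_real, Real.norm_eq_abs, sq_abs]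

/-- **An element of the Selberg class for which `S_F(x) / log log x` is unbounded.** -/
theorem elt2 : Elt2 :=
  elt2_of Pool.Agent.H336R4.BC.taskFixB Pool.Agent.H96R3.BC.Lag568.taskLag Pool.Agent.H811R3.BCNS.taskNS
    Pool.Agent.H929R3.BCSM.taskSm

end Pool.Agent.H96R3.BC
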