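import Mathlib
import Pool.Agent.H96R3.BC.Stmts
import Pool.Agent.H853R3.TaskPFFEX

/-! # From `Elt2` to the negation of Conjecture A -/

set_option autoImplicit false

open Finset

namespace Pool.Agent.H96R3.BC

open Pool.Agent.H336R4.PF (SS NT FE)

/-- functional equation away from the poles -/
lemma fe_full {m : ℕ} {G : ℂ → ℂ} (hG : Differentiable ℂ G) {Q : ℝ} {k : ℕ} {lam : Fin k → ℝ} {μ : Fin k → ℂ} {ω : ℂ}
    (hQ : 0 < Q) (h : FE m G Q k lam μ ω) (s : ℂ) (hs1 : s ≠ 1) (hs0 : s ≠ 0)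
    (hp : ∀ j, ∀ t : ℕ, (lam j : ℂ) * s + μ j ≠ -(t : ℂ))
    (hp' : ∀ j, ∀ t : ℕ, (lam j : ℂ) * (1 - starRingEnd ℂ s) + μ j ≠ -(t : ℂ)) :
    (Q : ℂ) ^ s * (∏ j, Complex.Gamma ((lam j : ℂ) * s + μ j)) * (G s / (s - 1) ^ m) =
      ω * starRingEnd ℂ ((Q : ℂ) ^ (1 - starRingEnd ℂ s) *
        (∏ j, Complex.Gamma ((lam j : ℂ) * (1 - starRingEnd ℂ s) + μ j)) *
        (G (1 - starRingEnd ℂ s) / ((1 - starRingEnd ℂ s) - 1) ^ m)) := by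
  have hx := Pool.Agent.H853R3.FEX.taskFEX m G hG Q k lam μ ω hQ h s
  set P1 : ℂ := ∏ j, Complex.Gamma ((lam j : ℂ) * s + μ j) with hP1
  set P2 : ℂ := ∏ j, Complex.Gamma ((lam j : ℂ) * (1 - s) + starRingEnd ℂ (μ j)) with hP2
  have hP1n : P1 ≠ 0 := by
    rw [hP1, Finset.prod_ne_zero_iff]
    intro j _
    exact Complex.Gamma_ne_zero (hp j)
  have hP2n : P2 ≠ 0 := by
    rw [hP2, Finset.prod_ne_zero_iff]
    intro j _
    apply Complex.Gamma_ne_zero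
    intro t ht
    apply hp' j t
    have := congrArg (starRingEnd ℂ) ht
    simpa using this
  have e1 : ∏ j, (Complex.Gamma ((lam j : ℂ) * (1 - s) + starRingEnd ℂ (μ j)))⁻¹ = P2⁻¹ := by
    rw [hP2, Finset.prod_inv_distrib]
  have e2 : ∏ j, (Complex.Gamma ((lam j : ℂ) * s + μ j))⁻¹ = P1⁻¹ := by
    rw [hP1, Finset.prod_inv_distrib]
  rw [e1, e2] at hx
  have e3 : starRingEnd ℂ ((Q : ℂ) ^ (1 - starRingEnd ℂ s) *
        (∏ j, Complex.Gamma ((lam j : ℂ) * (1 - starRingEnd ℂ s) + μ j)) *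
        (G (1 - starRingEnd ℂ s) / ((1 - starRingEnd ℂ s) - 1) ^ m)) =
      (Q : ℂ) ^ (1 - s) * P2 * (starRingEnd ℂ (G (1 - starRingEnd ℂ s)) / (-s) ^ m) := by
    rw [map_mul, map_mul, map_div₀, map_pow, map_prod, hP2]
    congr 1
    · congr 1
      · have hQarg : ((Q : ℂ)).arg ≠ Real.pi := by
          rw [Complex.arg_ofReal_of_nonneg hQ.le]; exact Real.pi_pos.ne
        have e4 : (1 - starRingEnd ℂ s) = starRingEnd ℂ (1 - s) := by simp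
        rw [e4, ← Complex.conj_cpow _ _ hQarg, Complex.conj_ofReal]
      · apply Finset.prod_congr rfl
        intro j _
        rw [← Complex.Gamma_conj]
        simp
    · congr 2
      simp
  rw [e3]
  have hs1' : s - 1 ≠ 0 := sub_ne_zero.2 hs1
  have h1 : (Q : ℂ) ^ s * G s * s ^ m * P1 = ω * ((-1) ^ m * (Q : ℂ) ^ (1 - s) * (starRingEnd ℂ (G (1 - starRingEnd ℂ s)) * (s - 1) ^ m)) * P2 := by
    have h2 : (Q : ℂ) ^ s * P2⁻¹ * (G s * s ^ m) * P1 * P2 =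
        ω * ((-1) ^ m * (Q : ℂ) ^ (1 - s) * P1⁻¹ * (starRingEnd ℂ (G (1 - starRingEnd ℂ s)) * (s - 1) ^ m)) * P1 * P2 := by
      rw [hx]
    have h3 : (Q : ℂ) ^ s * P2⁻¹ * (G s * s ^ m) * P1 * P2 = (Q : ℂ) ^ s * G s * s ^ m * P1 := by
      field_simp
    have h4 : ω * ((-1) ^ m * (Q : ℂ) ^ (1 - s) * P1⁻¹ * (starRingEnd ℂ (G (1 - starRingEnd ℂ s)) * (s - 1) ^ m)) * P1 * P2 =
        ω * ((-1) ^ m * (Q : ℂ) ^ (1 - s) * (starRingEnd ℂ (G (1 - starRingEnd ℂ s)) * (s - 1) ^ m)) * P2 := by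
      field_simp
    rw [h3, h4] at h2
    exact h2
  have hsm : (-s) ^ m ≠ 0 := pow_ne_zero m (neg_ne_zero.2 hs0)
  have hs1m : (s - 1) ^ m ≠ 0 := pow_ne_zero m hs1'
  rw [← mul_div_assoc, ← mul_div_assoc, ← mul_div_assoc, div_eq_div_iff hs1m hsm]
  have h5 : (-s) ^ m = (-1) ^ m * s ^ m := by rw [neg_pow]
  rw [h5]
  have h6 : ((-1 : ℂ) ^ m) * (-1) ^ m = 1 := by rw [← mul_pow]; simp
  calc (Q : ℂ) ^ s * P1 * G s * ((-1) ^ m * s ^ m) = (-1) ^ m * ((Q : ℂ) ^ s * G s * s ^ m * P1) := by ring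
    _ = (-1) ^ m * (ω * ((-1) ^ m * (Q : ℂ) ^ (1 - s) * (starRingEnd ℂ (G (1 - starRingEnd ℂ s)) * (s - 1) ^ m)) * P2) := by rw [h1]
    _ = ((-1) ^ m * (-1) ^ m) * (ω * ((Q : ℂ) ^ (1 - s) * P2 * starRingEnd ℂ (G (1 - starRingEnd ℂ s))) * (s - 1) ^ m) := by ring
    _ = _ := by rw [h6]; ring

theorem not_conjA (hE : Elt2) :
    ¬ (∀ a : ℕ → ℂ,
      a 1 = 1 →
      (∀ ε : ℝ, 0 < ε → ∃ C : ℝ, ∀ n : ℕ, 1 ≤ n → ‖a n‖ ≤ C * (n : ℝ) ^ ε) →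
      (∃ b : ℕ → ℂ, (∀ n : ℕ, ¬ IsPrimePow n → b n = 0) ∧
        (∃ θ : ℝ, θ < 1 / 2 ∧ ∃ C : ℝ, ∀ n : ℕ, ‖b n‖ ≤ C * (n : ℝ) ^ θ) ∧
        ∀ s : ℂ, 1 < s.re → LSeries a s = Complex.exp (LSeries b s)) →
      (∃ m : ℕ, ∃ G : ℂ → ℂ, Differentiable ℂ G ∧
        (∃ A B : ℝ, ∀ z : ℂ, ‖G z‖ ≤ A * Real.exp (‖z‖ ^ B)) ∧
        (∀ s : ℂ, 1 < s.re → G s = (s - 1) ^ m * LSeries a s) ∧
        ∃ Q : ℝ, 0 < Q ∧ ∃ k : ℕ, ∃ lam : Fin k → ℝ, ∃ μ : Fin k → ℂ,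
          (∀ j, 0 < lam j) ∧ (∀ j, 0 ≤ (μ j).re) ∧
          ∃ ω : ℂ, ‖ω‖ = 1 ∧
            ∀ s : ℂ, s ≠ 1 → s ≠ 0 →
              (∀ j, ∀ t : ℕ, (lam j : ℂ) * s + μ j ≠ -(t : ℂ)) →
              (∀ j, ∀ t : ℕ, (lam j : ℂ) * (1 - starRingEnd ℂ s) + μ j ≠ -(t : ℂ)) →
              (Q : ℂ) ^ s * (∏ j, Complex.Gamma ((lam j : ℂ) * s + μ j)) *
                  (G s / (s - 1) ^ m) =
                ω * starRingEnd ℂ
                  ((Q : ℂ) ^ (1 - starRingEnd ℂ s) *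
                    (∏ j, Complex.Gamma ((lam j : ℂ) * (1 - starRingEnd ℂ s) + μ j)) *
                    (G (1 - starRingEnd ℂ s) / ((1 - starRingEnd ℂ s) - 1) ^ m))) →
      ∃ nF : ℤ, ∃ C : ℝ, ∀ X : ℝ, 3 ≤ X →
        |(∑ p ∈ (Finset.range (⌊X⌋₊ + 1)).filter Nat.Prime, ‖a p‖ ^ 2 / (p : ℝ))
            - (nF : ℝ) * Real.log (Real.log X)| ≤ C) := by
  intro hall
  obtain ⟨a, hS, -, hunb⟩ := hE
  obtain ⟨ha1, hram, ⟨m, G, hGd, ⟨ρ, CG, hgr⟩, hGL, Q, hQ, k, lam, μ, ω, hlam, hμ, hω, hfe⟩, b, hb, θ, hθ, Cb, hbb, hexp⟩ := hS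
  have hFE : FE m G Q k lam μ ω := ⟨hlam, hμ, hω, hfe⟩
  obtain ⟨nF, C, h⟩ := hall a ha1 hram
    ⟨b, hb, ⟨θ, hθ, Cb, fun n => by
      rcases Nat.eq_zero_or_pos n with rfl | hn
      · have hb0 : b 0 = 0 := hb 0 not_isPrimePow_zero
        have hC0 : 0 ≤ Cb := by
          have := hbb 1 le_rfl
          simp at this
          exact (norm_nonneg _).trans this
        rw [hb0, norm_zero]
        positivity
      · exact hbb n hn⟩, hexp⟩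
    ⟨m, G, hGd, ⟨CG, ρ, hgr⟩, hGL, Q, hQ, k, lam, μ, hlam, hμ, ω, hω, fun s hs1 hs0 hp hp' =>
      fe_full hGd hQ hFE s hs1 hs0 hp hp'⟩
  obtain ⟨N, hN, hlt⟩ := hunb (|(nF : ℝ)| + |C| + 1)
  have hN3 : (3:ℝ) ≤ N := by exact_mod_cast hN
  have h1 := h N hN3
  have hset : (Finset.range (⌊(N:ℝ)⌋₊ + 1)) = Finset.Iic N := by
    rw [Nat.floor_natCast]
    ext x
    simp
  rw [hset] at h1
  have h2 := (abs_le.1 h1).2
  have hlog : 1 ≤ Real.log N := by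
    rw [Real.le_log_iff_exp_le (by linarith)]
    have := Real.exp_one_lt_d9
    linarith
  have hll : 0 ≤ Real.log (Real.log N) := Real.log_nonneg hlog
  have h3 : (nF : ℝ) * Real.log (Real.log N) ≤ |(nF:ℝ)| * Real.log (Real.log N) :=
    mul_le_mul_of_nonneg_right (le_abs_self _) hll
  have h4 : C ≤ |C| := le_abs_self _
  have h5 : 0 ≤ |C| * Real.log (Real.log N) := by positivity
  have h6 : 0 ≤ |(nF:ℝ)| := abs_nonneg _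
  nlinarith

end Pool.Agent.H96R3.BC
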